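import Mathlib

/-! The exponential of a sum over the primes as a Dirichlet series. -/

set_option autoImplicit false

namespace Pool.Agent.X280.EB

open Finset

/-- the coefficient of `n` -/
noncomputable def co (K : Type) [Field K] (y : ℕ → K) (n : ℕ) : K :=
  if n = 0 then 0 else n.factorization.prod fun p k => y p ^ k / (k.factorial : K)

section
variable {K : Type} [Field K] {y : ℕ → K}

theorem co_zero : co K y 0 = 0 := by simp [co]

theorem co_one : co K y 1 = 1 := by simp [co]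

theorem co_mul {m n : ℕ} (h : Nat.Coprime m n) : co K y (m * n) = co K y m * co K y n := by
  unfold co
  rcases eq_or_ne m 0 with hm | hm
  · simp [hm]
  rcases eq_or_ne n 0 with hn | hn
  · simp [hn]
  rw [if_neg (mul_ne_zero hm hn), if_neg hm, if_neg hn, Nat.factorization_mul_of_coprime h]
  exact Finsupp.prod_add_index_of_disjoint (Nat.Coprime.disjoint_primeFactors h) _

theorem co_pow {p : ℕ} (hp : p.Prime) (k : ℕ) : co K y (p ^ k) = y p ^ k / (k.factorial : K) := by
  unfold co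
  rw [if_neg (pow_ne_zero _ hp.ne_zero), hp.factorization_pow, Finsupp.prod_single_index]
  simp

/-- The recursion. -/
theorem co_rec [CharZero K] {p : ℕ} (hp : p.Prime) {n : ℕ} (hn : n ≠ 0) :
    co K y (p * n) * ((p * n).factorization p : K) = y p * co K y n := by
  obtain ⟨k, m, hm, rfl⟩ := Nat.exists_eq_pow_mul_and_not_dvd hn p hp.ne_one
  have hm0 : m ≠ 0 := fun h => hm (h ▸ dvd_zero p)
  have hc : Nat.Coprime p m := (Nat.Prime.coprime_iff_not_dvd hp).2 hm
  have e1 : p * (p ^ k * m) = p ^ (k + 1) * m := by ring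
  rw [e1, co_mul (Nat.Coprime.pow_left _ hc), co_mul (Nat.Coprime.pow_left _ hc), co_pow hp, co_pow hp,
    Nat.factorization_mul (pow_ne_zero _ hp.ne_zero) hm0, hp.factorization_pow]
  simp only [Finsupp.coe_add, Pi.add_apply, Finsupp.single_eq_same,
    Nat.factorization_eq_zero_of_not_dvd hm, add_zero]
  rw [Nat.factorial_succ]
  have h1 : ((k.factorial : ℕ) : K) ≠ 0 := by exact_mod_cast k.factorial_ne_zero
  have h2 : ((k : K) + 1) ≠ 0 := by exact_mod_cast k.succ_ne_zero
  push_cast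
  field_simp
  ring

end

/-- twisting -/
theorem co_twist {u : ℕ → ℂ} {χ : ℕ → ℂ} (hχ : ∀ m n, m ≠ 0 → n ≠ 0 → χ (m * n) = χ m * χ n)
    (hχ1 : χ 1 = 1) (n : ℕ) :
    co ℂ (fun p => u p * χ p) n = co ℂ u n * χ n := by
  induction n using Nat.recOnPosPrimePosCoprime with
  | prime_pow p n hp hn =>
    rw [co_pow hp, co_pow hp]
    have : ∀ k, χ (p ^ k) = χ p ^ k := fun k => by
      induction k with
      | zero => simpa using hχ1
      | succ k ih => rw [pow_succ, hχ _ _ (pow_ne_zero _ hp.ne_zero) hp.ne_zero, ih, pow_succ]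
    rw [this, mul_pow]
    ring
  | zero => simp [co_zero]
  | one => simp [co_one, hχ1]
  | coprime a b ha hb hab iha ihb =>
    rw [co_mul hab, co_mul hab, hχ _ _ (by omega) (by omega), iha, ihb]
    ring

theorem norm_co (u : ℕ → ℂ) (n : ℕ) : ‖co ℂ u n‖ = co ℝ (fun p => ‖u p‖) n := by
  induction n using Nat.recOnPosPrimePosCoprime with
  | prime_pow p n hp hn =>
    rw [co_pow hp, co_pow hp, norm_div, norm_pow]
    simp
  | zero => simp [co_zero]
  | one => simp [co_one]
  | coprime a b ha hb hab iha ihb => rw [co_mul hab, co_mul hab, norm_mul, iha, ihb]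

theorem co_nonneg {u : ℕ → ℝ} (hu : ∀ p, 0 ≤ u p) (n : ℕ) : 0 ≤ co ℝ u n := by
  unfold co
  split_ifs
  · exact le_rfl
  · unfold Finsupp.prod
    exact Finset.prod_nonneg fun p _ => div_nonneg (pow_nonneg (hu p) _) (by positivity)

theorem co_mono {u v : ℕ → ℝ} (hu : ∀ p, 0 ≤ u p) (huv : ∀ p, p.Prime → u p ≤ v p) (n : ℕ) :
    co ℝ u n ≤ co ℝ v n := by
  unfold co
  split_ifs
  · exact le_rfl
  · unfold Finsupp.prod
    refine Finset.prod_le_prod (fun p _ => div_nonneg (pow_nonneg (hu p) _) (by positivity))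
      fun p hp => ?_
    have hpp : p.Prime := by
      rw [Nat.support_factorization] at hp
      exact Nat.prime_of_mem_primeFactors hp
    exact div_le_div_of_nonneg_right (pow_le_pow_left₀ (hu p) (huv p hpp) _) (by positivity)

/-- weights `n^{-σ}` -/
theorem co_rpow (u : ℕ → ℝ) (σ : ℝ) (n : ℕ) :
    co ℝ (fun p => u p * (p : ℝ) ^ (-σ)) n = co ℝ u n * (n : ℝ) ^ (-σ) := by
  induction n using Nat.recOnPosPrimePosCoprime with
  | prime_pow p n hp hn =>
    rw [co_pow hp, co_pow hp, mul_pow]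
    push_cast
    rw [← Real.rpow_natCast ((p : ℝ) ^ (-σ)), ← Real.rpow_natCast (p : ℝ) n,
      ← Real.rpow_mul (Nat.cast_nonneg p), ← Real.rpow_mul (Nat.cast_nonneg p)]
    rw [mul_comm (-σ)]
    ring
  | zero => simp [co_zero]
  | one => simp [co_one]
  | coprime a b ha hb hab iha ihb =>
    rw [co_mul hab, co_mul hab, iha, ihb]
    push_cast
    rw [Real.mul_rpow (Nat.cast_nonneg a) (Nat.cast_nonneg b)]
    ring

/-- Summability. -/
theorem co_sum_le {u : ℕ → ℝ} (hu : ∀ p, 0 ≤ u p) (hs : Summable fun p : Nat.Primes => u p)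
    (s : Finset ℕ) : ∑ n ∈ s, co ℝ u n ≤ Real.exp (∑' p : Nat.Primes, u p) := by
  classical
  set N := s.sup id + 1 with hN
  have h1 : ∀ {p : ℕ}, p.Prime → Summable fun n : ℕ => ‖co ℝ u (p ^ n)‖ := fun {p} hp => by
    simp_rw [co_pow hp]
    exact (Real.summable_pow_div_factorial (u p)).norm
  have h2 := EulerProduct.summable_and_hasSum_smoothNumbers_prod_primesBelow_tsum
    (f := co ℝ u) co_one (fun {m n} h => co_mul h) h1 N
  have h3 : ∀ p : ℕ, p.Prime → ∑' n : ℕ, co ℝ u (p ^ n) = Real.exp (u p) := fun p hp => by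
    simp_rw [co_pow hp]
    rw [Real.exp_eq_exp_ℝ, NormedSpace.exp_eq_tsum_div]
  have h4 : ∏ p ∈ N.primesBelow, ∑' n : ℕ, co ℝ u (p ^ n) =
      Real.exp (∑ p ∈ N.primesBelow, u p) := by
    rw [Real.exp_sum]
    exact Finset.prod_congr rfl fun p hp => h3 p (Nat.prime_of_mem_primesBelow hp)
  rw [h4] at h2
  have h5 : ∑ p ∈ N.primesBelow, u p ≤ ∑' p : Nat.Primes, u p := by
    have h6 := hs.sum_le_tsum (f := fun p : Nat.Primes => u p)
      (N.primesBelow.subtype Nat.Prime) fun p _ => hu p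
    refine le_trans (le_of_eq ?_) h6
    refine (Finset.sum_subtype_of_mem (p := Nat.Prime) (fun p => u p) fun p hp => ?_).symm
    exact Nat.prime_of_mem_primesBelow hp
  have h7 : ∑ n ∈ s, co ℝ u n = ∑ n ∈ (s.erase 0), co ℝ u n := by
    by_cases h0 : 0 ∈ s
    · rw [← Finset.add_sum_erase s _ h0, co_zero, zero_add]
    · rw [Finset.erase_eq_of_notMem h0]
  have h8 : ∀ n ∈ s.erase 0, n ∈ N.smoothNumbers := fun n hn => by
    obtain ⟨hn0, hns⟩ := Finset.mem_erase.1 hn
    rw [Nat.mem_smoothNumbers']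
    intro p hp hpn
    have := Nat.le_of_dvd (Nat.pos_of_ne_zero hn0) hpn
    have h9 : n ≤ s.sup id := Finset.le_sup (f := id) hns
    omega
  rw [h7]
  have h9 : ∑ n ∈ s.erase 0, co ℝ u n = ∑ n ∈ (s.erase 0).subtype (· ∈ N.smoothNumbers), co ℝ u n :=
    (Finset.sum_subtype_of_mem (fun n => co ℝ u n) h8).symm
  rw [h9]
  exact (sum_le_hasSum ((s.erase 0).subtype (· ∈ N.smoothNumbers))
    (fun n _ => co_nonneg hu (n : ℕ)) h2.2).trans (Real.exp_le_exp.2 h5)

theorem co_summable {u : ℕ → ℝ} (hu : ∀ p, 0 ≤ u p) (hs : Summable fun p : Nat.Primes => u p) :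
    Summable (co ℝ u) :=
  summable_of_sum_le (fun n => co_nonneg hu n) fun s => co_sum_le hu hs s

theorem co_tsum_real {u : ℕ → ℝ} (hu : ∀ p, 0 ≤ u p) (hs : Summable fun p : Nat.Primes => u p) :
    ∑' n, co ℝ u n = Real.exp (∑' p : Nat.Primes, u p) := by
  have h1 := EulerProduct.eulerProduct_hasProd (f := co ℝ u) co_one (fun {m n} h => co_mul h)
    (co_summable hu hs).norm co_zero
  have h2 : (fun p : Nat.Primes => ∑' n : ℕ, co ℝ u ((p : ℕ) ^ n)) = fun p : Nat.Primes => Real.exp (u p) := by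
    funext p
    simp_rw [co_pow p.2]
    rw [Real.exp_eq_exp_ℝ, NormedSpace.exp_eq_tsum_div]
  rw [h2] at h1
  exact h1.unique hs.hasSum.rexp

theorem co_tsum {u : ℕ → ℂ} (hs : Summable fun p : Nat.Primes => ‖u p‖) :
    ∑' n, co ℂ u n = Complex.exp (∑' p : Nat.Primes, u p) := by
  have h0 : Summable fun n => ‖co ℂ u n‖ := by
    simp_rw [norm_co]
    exact co_summable (fun p => norm_nonneg _) hs
  have h1 := EulerProduct.eulerProduct_hasProd (f := co ℂ u) co_one (fun {m n} h => co_mul h)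
    h0 co_zero
  have h2 : (fun p : Nat.Primes => ∑' n : ℕ, co ℂ u ((p : ℕ) ^ n)) = fun p : Nat.Primes => Complex.exp (u p) := by
    funext p
    simp_rw [co_pow p.2]
    rw [Complex.exp_eq_exp_ℂ, NormedSpace.exp_eq_tsum_div]
  rw [h2] at h1
  exact h1.unique hs.of_norm.hasSum.cexp

end Pool.Agent.X280.EB
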