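import Pool.Agent.X280.EB.Exp

/-! Mean square differences of the logarithm at two distances from the edge. -/

set_option autoImplicit false

namespace Pool.Agent.X280.EB

open Finset MeasureTheory Filter Topology

/-- `min(1, ε log m)` -/
noncomputable def hh (ε : ℝ) (m : ℕ) : ℝ := min 1 (ε * Real.log m)

theorem hh_nonneg {ε : ℝ} (hε : 0 ≤ ε) (m : ℕ) : 0 ≤ hh ε m :=
  le_min zero_le_one (mul_nonneg hε (Real.log_natCast_nonneg m))

theorem hh_le (ε : ℝ) (m : ℕ) : hh ε m ≤ 1 := min_le_left _ _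

theorem hh_tendsto (m : ℕ) : Tendsto (fun ε => hh ε m) (𝓝[>] 0) (𝓝 0) := by
  have h1 : Continuous fun ε : ℝ => hh ε m := by unfold hh; fun_prop
  have h2 := (h1.tendsto 0).mono_left (nhdsWithin_le_nhds (s := Set.Ioi 0))
  have h3 : hh 0 m = 0 := by simp [hh]
  rwa [h3] at h2

theorem diff_pow {ε δ : ℝ} (hδ : 0 ≤ δ) (hδε : δ ≤ ε) {p : ℕ} (hp : p.Prime) :
    0 ≤ (p : ℝ) ^ (-(1 + δ)) - (p : ℝ) ^ (-(1 + ε)) ∧
      (p : ℝ) ^ (-(1 + δ)) - (p : ℝ) ^ (-(1 + ε)) ≤ (p : ℝ)⁻¹ * hh ε p := by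
  have hp1 : (1 : ℝ) ≤ p := by exact_mod_cast hp.one_lt.le
  have hp0 : (0 : ℝ) < p := by linarith
  have hl : 0 ≤ Real.log p := Real.log_nonneg hp1
  have e1 : (p : ℝ) ^ (-(1 + ε)) = (p : ℝ) ^ (-(1 + δ)) * Real.exp (-((ε - δ) * Real.log p)) := by
    rw [show Real.exp (-((ε - δ) * Real.log p)) = (p : ℝ) ^ (-(ε - δ)) by
      rw [Real.rpow_def_of_pos hp0]; congr 1; ring, ← Real.rpow_add hp0]
    congr 1
    ring
  have h1 : 0 ≤ (ε - δ) * Real.log p := mul_nonneg (by linarith) hl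
  have h2 : Real.exp (-((ε - δ) * Real.log p)) ≤ 1 := Real.exp_le_one_iff.2 (by linarith)
  have h3 := Real.add_one_le_exp (-((ε - δ) * Real.log p))
  have h4 := Real.exp_pos (-((ε - δ) * Real.log p))
  have h5 : 0 < (p : ℝ) ^ (-(1 + δ)) := by positivity
  have h6 : (p : ℝ) ^ (-(1 + δ)) ≤ (p : ℝ)⁻¹ := rpow_le_inv hδ hp
  rw [e1]
  constructor
  · nlinarith
  · have h7 : 1 - Real.exp (-((ε - δ) * Real.log p)) ≤ hh ε p := by
      unfold hh
      refine le_min (by linarith) ?_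
      nlinarith
    calc _ = (p : ℝ) ^ (-(1 + δ)) * (1 - Real.exp (-((ε - δ) * Real.log p))) := by ring
      _ ≤ _ := mul_le_mul h6 h7 (by linarith) (by positivity)

/-- the weights of the kernel sum for `κ = 1/4` -/
noncomputable def kw (m : ℕ) : ℝ := ff (1 / 4) m * WS (1 / 4) m / (m : ℝ) ^ 2

theorem kw_nonneg (m : ℕ) : 0 ≤ kw m := by
  have h : (0 : ℝ) ≤ 1 / 4 := by norm_num
  unfold kw
  exact div_nonneg (mul_nonneg (ff_nonneg h m) (Finset.sum_nonneg fun n _ => ff_nonneg h n))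
    (by positivity)

theorem kw_summable : Summable kw := by
  obtain ⟨C, hC⟩ := kernel (κ := 1 / 4) (by norm_num) (by norm_num)
  refine summable_of_sum_le (c := C) kw_nonneg fun s => ?_
  refine le_trans ?_ (hC (s.sup id))
  have h0 : kw 0 = 0 := by simp [kw, ff, co_zero]
  rw [← Finset.sum_filter_add_sum_filter_not s (fun n => n = 0)]
  have h3 : ∑ n ∈ s with n = 0, kw n = 0 :=
    Finset.sum_eq_zero fun n hn => by rw [(Finset.mem_filter.1 hn).2, h0]
  rw [h3, zero_add]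
  refine Finset.sum_le_sum_of_subset_of_nonneg ?_ fun n _ _ => kw_nonneg n
  intro n hn
  obtain ⟨h4, h5⟩ := Finset.mem_filter.1 hn
  exact Finset.mem_Icc.2 ⟨Nat.pos_of_ne_zero h5, Finset.le_sup (f := id) h4⟩

/-- the modulus -/
noncomputable def Psi (ε : ℝ) : ℝ :=
  Real.exp 1 * (Real.sqrt Real.pi * (2 * Real.exp 1 * 4 ^ 2 * ∑' m, hh ε m * kw m))

theorem tsum_tendsto {w : ℕ → ℝ} (hw : Summable w) (h0 : ∀ m, 0 ≤ w m) :
    Tendsto (fun ε => ∑' m, hh ε m * w m) (𝓝[>] 0) (𝓝 0) := by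
  have h := tendsto_tsum_of_dominated_convergence (𝓕 := 𝓝[>] (0 : ℝ))
    (f := fun ε m => hh ε m * w m) (g := fun _ => 0) hw
    (fun m => by simpa using (hh_tendsto m).mul_const (w m)) ?_
  · simpa using h
  · filter_upwards [self_mem_nhdsWithin] with ε hε m
    rw [Real.norm_eq_abs, abs_of_nonneg (mul_nonneg (hh_nonneg (le_of_lt hε) m) (h0 m))]
    exact mul_le_of_le_one_left (h0 m) (hh_le ε m)

theorem Psi_tendsto : Tendsto Psi (𝓝[>] 0) (𝓝 0) := by
  have h := tsum_tendsto kw_summable kw_nonneg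
  have h2 := ((h.const_mul (2 * Real.exp 1 * 4 ^ 2)).const_mul (Real.sqrt Real.pi)).const_mul
    (Real.exp 1)
  rw [mul_zero, mul_zero, mul_zero] at h2
  exact h2

theorem ff_prime {κ : ℝ} {p : ℕ} (hp : p.Prime) : ff κ p = κ := by
  have := co_pow (K := ℝ) (y := fun _ => κ) hp 1
  rw [pow_one] at this
  unfold ff
  rw [this]
  simp

/-- **The differences of the sums over the primes.** -/
theorem PP_diff {a : ℕ → ℂ} {ρ : ℝ} (hρ : 0 ≤ ρ) (ha : ∀ p : ℕ, p.Prime → ‖a p‖ ≤ ρ) {ε δ : ℝ}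
    (hδ : 0 < δ) (hδε : δ ≤ ε) (τ : ℝ) :
    ∫ t in τ..(τ + 1), ‖PP a δ t - PP a ε t‖ ^ 2 ≤ ρ ^ 2 * Psi ε := by
  classical
  have hε : 0 < ε := hδ.trans_le hδε
  set c : ℕ → ℂ := fun n => if n.Prime then
    a n * (((n : ℝ) ^ (-(1 + δ)) - (n : ℝ) ^ (-(1 + ε)) : ℝ) : ℂ) else 0 with hc
  have hc0 : c 0 = 0 := by simp [hc, Nat.not_prime_zero]
  have hcs : Summable fun n => ‖c n‖ := by
    have h1 : Summable fun p : Nat.Primes => ‖c p‖ := by
      refine Summable.of_nonneg_of_le (fun p => norm_nonneg _) (fun p => ?_)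
        ((summable_pr δ hδ).mul_left ρ)
      simp only [hc]
      rw [if_pos p.2, norm_mul, Complex.norm_real, Real.norm_eq_abs,
        abs_of_nonneg (diff_pow hδ.le hδε p.2).1]
      refine mul_le_mul (ha p p.2) ?_ (diff_pow hδ.le hδε p.2).1 hρ
      have : 0 ≤ ((p : ℕ) : ℝ) ^ (-(1 + ε)) := by positivity
      linarith
    have h2 : (fun n => ‖c n‖) = Set.indicator {p : ℕ | p.Prime} (fun n => ‖c n‖) := by
      funext n
      by_cases hn : n.Prime
      · rw [Set.indicator_of_mem (by exact hn)]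
      · rw [Set.indicator_of_notMem (by exact hn)]
        simp [hc, hn]
    rw [h2]
    exact (summable_subtype_iff_indicator (f := fun n => ‖c n‖) (s := {p : ℕ | p.Prime})).1 h1
  have hP : ∀ t, PP a δ t - PP a ε t = ∑' n, c n * ch (Real.log n) t := by
    intro t
    have h1 := (summable_a hδ ha t).of_norm
    have h2 := (summable_a hε ha t).of_norm
    unfold PP
    rw [← h1.tsum_sub h2]
    have h3 : (fun n : ℕ => c n * ch (Real.log n) t) =
        Set.indicator {p : ℕ | p.Prime} (fun n : ℕ => c n * ch (Real.log n) t) := by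
      funext n
      by_cases hn : n.Prime
      · rw [Set.indicator_of_mem (by exact hn)]
      · rw [Set.indicator_of_notMem (by exact hn)]
        simp [hc, hn]
    rw [h3, ← _root_.tsum_subtype]
    refine tsum_congr fun p => ?_
    simp only [hc]
    rw [if_pos p.2]
    push_cast
    ring
  have hM : ∀ M : ℕ, ∫ t in τ..(τ + 1), ‖∑ n ∈ Icc 1 M, c n * ch (Real.log n) t‖ ^ 2 ≤
      ρ ^ 2 * Psi ε := by
    intro M
    refine (gauss_bound (Icc 1 M) c (fun n => Real.log n) τ).trans ?_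
    have hb : ∀ n ∈ Icc 1 M, ‖c n‖ ≤ hh ε n * ((4 * ρ) * (ff (1 / 4) n / n)) := by
      intro n hn
      have hf : 0 ≤ ff (1 / 4) n := ff_nonneg (by norm_num) n
      by_cases hp : n.Prime
      · simp only [hc]
        rw [if_pos hp, norm_mul, Complex.norm_real, Real.norm_eq_abs,
          abs_of_nonneg (diff_pow hδ.le hδε hp).1, ff_prime hp]
        calc _ ≤ ρ * ((n : ℝ)⁻¹ * hh ε n) :=
              mul_le_mul (ha n hp) (diff_pow hδ.le hδε hp).2 (diff_pow hδ.le hδε hp).1 hρ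
          _ = _ := by ring
      · simp only [hc]
        rw [if_neg hp, norm_zero]
        exact mul_nonneg (hh_nonneg hε.le n) (by positivity)
    have h1 := dblh (κ := 1 / 4) (B := 4 * ρ) (by norm_num) (by positivity) M (fun n => ‖c n‖)
      (fun n => hh ε n) (fun n => norm_nonneg _) (fun n hn => by
        have hf : 0 ≤ ff (1 / 4) n := ff_nonneg (by norm_num) n
        exact (hb n hn).trans (mul_le_of_le_one_left (by positivity) (hh_le ε n))) hb
    have h2 : ∑ m ∈ Icc 1 M, hh ε m * (ff (1 / 4) m * WS (1 / 4) m / (m : ℝ) ^ 2) ≤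
        ∑' m, hh ε m * kw m := by
      have hs : Summable fun m => hh ε m * kw m :=
        Summable.of_nonneg_of_le (fun m => mul_nonneg (hh_nonneg hε.le m) (kw_nonneg m))
          (fun m => mul_le_of_le_one_left (kw_nonneg m) (hh_le ε m)) kw_summable
      exact hs.sum_le_tsum (Icc 1 M) fun m _ => mul_nonneg (hh_nonneg hε.le m) (kw_nonneg m)
    have h3 : ρ ^ 2 * Psi ε = Real.exp 1 * (Real.sqrt Real.pi *
        (2 * Real.exp 1 * (4 * ρ) ^ 2 * ∑' m, hh ε m * kw m)) := by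
      unfold Psi
      ring
    rw [h3]
    refine mul_le_mul_of_nonneg_left (mul_le_mul_of_nonneg_left ?_ (Real.sqrt_nonneg _))
      (Real.exp_pos _).le
    refine h1.trans (mul_le_mul_of_nonneg_left h2 ?_)
    positivity
  have h := lim_sum hcs hc0 hM
  simp_rw [← hP] at h
  exact h

/-- `-log(1 - z) - z` -/
noncomputable def ph (z : ℂ) : ℂ := Complex.log (1 - z)⁻¹ - z

theorem ph_le {z : ℂ} (hz : ‖z‖ ≤ 1 / 2) : ‖ph z‖ ≤ ‖z‖ ^ 2 := by
  have h1 := Complex.norm_log_one_sub_inv_sub_self_le (z := z) (by linarith)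
  have h2 : (1 - ‖z‖)⁻¹ ≤ 2 := by
    rw [inv_le_comm₀ (by linarith) (by norm_num)]
    linarith
  calc _ ≤ ‖z‖ ^ 2 * (1 - ‖z‖)⁻¹ / 2 := h1
    _ ≤ ‖z‖ ^ 2 * 2 / 2 := by gcongr
    _ = _ := by ring

theorem ph_diff {q : ℝ} (hq : q ≤ 1 / 2) {z z' : ℂ} (hz : ‖z‖ ≤ q) (hz' : ‖z'‖ ≤ q) :
    ‖ph z - ph z'‖ ≤ 2 * q * ‖z - z'‖ := by
  have hq0 : 0 ≤ q := (norm_nonneg z).trans hz
  have hd : ∀ x ∈ Metric.closedBall (0 : ℂ) q,
      HasDerivWithinAt ph ((1 - x)⁻¹ - 1) (Metric.closedBall (0 : ℂ) q) x := by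
    intro x hx
    have hx' : ‖x‖ ≤ q := by simpa using hx
    have hx1 : ‖x‖ < 1 := by linarith
    have hre : 0 < (1 - x).re := by
      have := Complex.abs_re_le_norm x
      have h2 := (abs_le.1 this).2
      simp only [Complex.sub_re, Complex.one_re]
      linarith
    have hne : (1 - x) ≠ 0 := fun h => by rw [h] at hre; simp at hre
    have hsl : (1 - x)⁻¹ ∈ Complex.slitPlane := by
      refine Or.inl ?_
      rw [Complex.inv_re]
      exact div_pos hre (Complex.normSq_pos.2 hne)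
    have h1 : HasDerivAt (fun x : ℂ => 1 - x) (-1) x := by
      simpa using (hasDerivAt_id x).const_sub 1
    have h2 := (h1.inv hne).clog hsl
    have h3 := h2.sub (hasDerivAt_id x)
    refine (h3.congr_deriv ?_).hasDerivWithinAt
    have e : (fun x : ℂ => 1 - x)⁻¹ x = (1 - x)⁻¹ := rfl
    rw [e]
    field_simp
  have hb : ∀ x ∈ Metric.closedBall (0 : ℂ) q, ‖(1 - x)⁻¹ - 1‖ ≤ 2 * q := by
    intro x hx
    have hx' : ‖x‖ ≤ q := by simpa using hx
    have h1 : 1 / 2 ≤ ‖1 - x‖ := by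
      have := norm_sub_norm_le (1 : ℂ) x
      rw [norm_one] at this
      linarith
    have hne : (1 - x) ≠ 0 := fun h => by rw [h, norm_zero] at h1; linarith
    have h2 : (1 - x)⁻¹ - 1 = x * (1 - x)⁻¹ := by field_simp; ring
    rw [h2, norm_mul, norm_inv]
    have h3 : ‖1 - x‖⁻¹ ≤ 2 := by
      rw [inv_le_comm₀ (by linarith) (by norm_num)]
      linarith
    calc ‖x‖ * ‖1 - x‖⁻¹ ≤ q * 2 := mul_le_mul hx' h3 (by positivity) hq0
      _ = _ := by ring
  exact Convex.norm_image_sub_le_of_norm_hasDerivWithin_le hd hb (convex_closedBall _ _)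
    (by simpa using hz') (by simpa using hz)

end Pool.Agent.X280.EB
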