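import Pool.Agent.X280.EB.Log

/-! Boundary values on the edge line. -/

set_option autoImplicit false

namespace Pool.Agent.X280.EB

open Finset MeasureTheory Filter Topology
open scoped ENNReal

theorem toL {f : ℝ → ℝ} (hf : Continuous f) (h0 : ∀ t, 0 ≤ f t) (τ : ℝ) :
    ∫⁻ t in Set.Icc τ (τ + 1), ENNReal.ofReal (f t) = ENNReal.ofReal (∫ t in τ..(τ + 1), f t) := by
  rw [intervalIntegral.integral_of_le (by linarith), ← integral_Icc_eq_integral_Ioc]
  refine (ofReal_integral_eq_lintegral_ofReal ?_ (Eventually.of_forall h0)).symm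
  exact hf.continuousOn.integrableOn_Icc

theorem fatou {μ : Measure ℝ} {F : ℕ → ℝ → ℝ} {f : ℝ → ℝ} (hF : ∀ k, Continuous (F k))
    (hlim : ∀ᵐ t ∂μ, Tendsto (fun k => F k t) atTop (𝓝 (f t))) {B : ℝ≥0∞}
    (h : ∀ k, ∫⁻ t, ENNReal.ofReal (F k t) ∂μ ≤ B) : ∫⁻ t, ENNReal.ofReal (f t) ∂μ ≤ B := by
  have h1 : ∫⁻ t, ENNReal.ofReal (f t) ∂μ =
      ∫⁻ t, liminf (fun k => ENNReal.ofReal (F k t)) atTop ∂μ := by
    refine lintegral_congr_ae ?_
    filter_upwards [hlim] with t ht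
    exact ((ENNReal.tendsto_ofReal ht).liminf_eq).symm
  rw [h1]
  refine (lintegral_liminf_le fun k => (hF k).measurable.ennreal_ofReal).trans ?_
  refine (liminf_le_liminf (v := fun _ => B) (Eventually.of_forall h)).trans (le_of_eq ?_)
  exact liminf_const B

/-- The boundary function. -/
theorem boundary {G : ℝ → ℝ → ℂ} (hG : ∀ ε, 0 < ε → Continuous (G ε)) {ω : ℝ → ℝ}
    (hω : Tendsto ω (𝓝[>] 0) (𝓝 0))
    (hd : ∀ δ ε τ : ℝ, 0 < δ → δ ≤ ε → ∫ t in τ..(τ + 1), ‖G δ t - G ε t‖ ^ 2 ≤ ω ε) :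
    ∃ (g : ℝ → ℂ) (e : ℕ → ℝ), Measurable g ∧ (∀ k, 0 < e k) ∧ Tendsto e atTop (𝓝 0) ∧
      ∀ᵐ t, Tendsto (fun k => G (e k) t) atTop (𝓝 (g t)) := by
  have h1 : ∀ k : ℕ, ∃ η : ℝ, 0 < η ∧ ∀ ε, 0 < ε → ε < η → ω ε ≤ (1 / 4) ^ k / 4 := by
    intro k
    have h2 := hω (Iio_mem_nhds (show (0 : ℝ) < (1 / 4) ^ k / 4 by positivity))
    rw [Filter.mem_map, mem_nhdsGT_iff_exists_Ioo_subset] at h2
    obtain ⟨η, hη, h3⟩ := h2
    exact ⟨η, hη, fun ε h4 h5 => (le_of_lt (h3 ⟨h4, h5⟩ : _))⟩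
  choose η hη hωη using h1
  set e : ℕ → ℝ := fun k => Nat.rec (min (η 0 / 2) 1)
    (fun k a => min a (min (η (k + 1) / 2) (1 / ((k : ℝ) + 2)))) k with he
  have e0 : e 0 = min (η 0 / 2) 1 := rfl
  have es : ∀ k, e (k + 1) = min (e k) (min (η (k + 1) / 2) (1 / ((k : ℝ) + 2))) := fun k => rfl
  have hpos : ∀ k, 0 < e k := fun k => by
    induction k with
    | zero => rw [e0]; exact lt_min (by linarith [hη 0]) one_pos
    | succ k ih => rw [es]; exact lt_min ih (lt_min (by linarith [hη (k + 1)]) (by positivity))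
  have hanti : Antitone e := antitone_nat_of_succ_le fun k => by rw [es]; exact min_le_left _ _
  have hlt : ∀ k, e k < η k := fun k => by
    rcases k with _ | k
    · rw [e0]; exact (min_le_left _ _).trans_lt (by linarith [hη 0])
    · rw [es]
      exact ((min_le_right _ _).trans (min_le_left _ _)).trans_lt (by linarith [hη (k + 1)])
  have hle : ∀ k : ℕ, e k ≤ 1 / ((k : ℝ) + 1) := fun k => by
    rcases k with _ | k
    · rw [e0]; exact (min_le_right _ _).trans (by norm_num)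
    · rw [es]
      refine ((min_le_right _ _).trans (min_le_right _ _)).trans (le_of_eq ?_)
      push_cast
      ring
  have hlim : Tendsto e atTop (𝓝 0) :=
    squeeze_zero (fun k => (hpos k).le) hle tendsto_one_div_add_atTop_nhds_zero_nat
  have hloc : ∀ j : ℤ, ∀ᵐ t ∂(volume.restrict (Set.Icc (j : ℝ) (j + 1))),
      ∃ l : ℂ, Tendsto (fun k => G (e k) t) atTop (𝓝 l) := by
    intro j
    refine Lp.ae_tendsto_of_cauchy_eLpNorm (p := 2)
      (fun k => (hG (e k) (hpos k)).aestronglyMeasurable) (by norm_num)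
      (B := fun k => ENNReal.ofReal ((1 / 2) ^ k)) ?_ ?_
    · rw [← ENNReal.ofReal_tsum_of_nonneg (fun k => by positivity)
        (summable_geometric_of_lt_one (by norm_num) (by norm_num))]
      exact ENNReal.ofReal_ne_top
    · have key : ∀ N n m : ℕ, N ≤ n → n ≤ m →
          eLpNorm (G (e m) - G (e n)) 2 (volume.restrict (Set.Icc (j : ℝ) (j + 1))) <
            ENNReal.ofReal ((1 / 2) ^ N) := by
        intro N n m hN hnm
        rw [eLpNorm_eq_lintegral_rpow_enorm_toReal (by norm_num) (by norm_num)]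
        have e1 : ∀ t, ‖(G (e m) - G (e n)) t‖ₑ ^ (2 : ℝ≥0∞).toReal =
            ENNReal.ofReal (‖G (e m) t - G (e n) t‖ ^ 2) := by
          intro t
          rw [Pi.sub_apply, ← ofReal_norm]
          have : (2 : ℝ≥0∞).toReal = ((2 : ℕ) : ℝ) := by simp
          rw [this, ENNReal.rpow_natCast, ENNReal.ofReal_pow (norm_nonneg _)]
        simp_rw [e1]
        rw [toL (f := fun t => ‖G (e m) t - G (e n) t‖ ^ 2)
          (((hG _ (hpos m)).sub (hG _ (hpos n))).norm.pow 2) (fun t => by positivity)]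
        have h2 := hd (e m) (e n) j (hpos m) (hanti hnm)
        have h3 := hωη n (e n) (hpos n) (hlt n)
        have h4 : ((1 : ℝ) / 4) ^ n ≤ (1 / 4) ^ N :=
          pow_le_pow_of_le_one (by norm_num) (by norm_num) hN
        have h5 : ∫ t in (j : ℝ)..(j + 1), ‖G (e m) t - G (e n) t‖ ^ 2 ≤
            ((1 / 2) ^ N / 2) ^ 2 := by
          have : ((1 / 2 : ℝ) ^ N / 2) ^ 2 = (1 / 4) ^ N / 4 := by
            rw [div_pow, ← pow_mul, mul_comm N 2, pow_mul]; norm_num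
          rw [this]
          linarith
        have h6 : ENNReal.ofReal (∫ t in (j : ℝ)..(j + 1), ‖G (e m) t - G (e n) t‖ ^ 2) ^
            (1 / (2 : ℝ≥0∞).toReal) ≤ ENNReal.ofReal ((1 / 2) ^ N / 2) := by
          refine (ENNReal.rpow_le_rpow (ENNReal.ofReal_le_ofReal h5) (by positivity)).trans ?_
          rw [ENNReal.ofReal_rpow_of_nonneg (by positivity) (by positivity)]
          refine ENNReal.ofReal_le_ofReal (le_of_eq ?_)
          have : (1 / (2 : ℝ≥0∞).toReal) = 1 / 2 := by simp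
          rw [this, ← Real.sqrt_eq_rpow, Real.sqrt_sq (by positivity)]
        refine h6.trans_lt ?_
        rw [ENNReal.ofReal_lt_ofReal_iff (by positivity)]
        have : (0 : ℝ) < (1 / 2) ^ N := by positivity
        linarith
      intro N n m hn hm
      rcases le_total n m with h | h
      · have := key N n m hn h
        rwa [eLpNorm_sub_comm]
      · exact key N m n hm h
  have hae : ∀ᵐ t, ∃ l : ℂ, Tendsto (fun k => G (e k) t) atTop (𝓝 l) := by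
    have h2 : ∀ j : ℤ, ∀ᵐ t : ℝ, t ∈ Set.Icc (j : ℝ) (j + 1) →
        ∃ l : ℂ, Tendsto (fun k => G (e k) t) atTop (𝓝 l) := fun j =>
      (ae_restrict_iff' measurableSet_Icc).1 (hloc j)
    have h3 := ae_all_iff.2 h2
    filter_upwards [h3] with t ht
    exact ht ⌊t⌋ ⟨Int.floor_le t, (Int.lt_floor_add_one t).le⟩
  obtain ⟨g, hg, hg2⟩ := measurable_limit_of_tendsto_metrizable_ae
    (fun k => (hG (e k) (hpos k)).measurable.aemeasurable) hae
  exact ⟨g, e, hg, hpos, hlim, hg2⟩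

/-- the constant -/
theorem exists_Cf : ∃ Cf : ℝ → ℝ, ∀ (r : ℕ) (x : ℕ → Fin r → ℂ),
    (∀ p : ℕ, p.Prime → ∀ j, ‖x p j‖ ≤ 1) → ∀ z : ℂ, ‖z‖ * r < 1 →
      ∀ ε : ℝ, 0 < ε → ∀ τ : ℝ, ∫ t in τ..(τ + 1), Real.exp (z * LG x ε t).re ≤ Cf (‖z‖ * r) := by
  have h : ∀ κ : ℝ, ∃ C : ℝ, 0 ≤ κ → κ < 1 → ∀ (r : ℕ) (x : ℕ → Fin r → ℂ),
      (∀ p : ℕ, p.Prime → ∀ j, ‖x p j‖ ≤ 1) → ∀ z : ℂ, ‖z‖ * r ≤ κ →
      ∀ ε : ℝ, 0 < ε → ∀ τ : ℝ, ∫ t in τ..(τ + 1), Real.exp (z * LG x ε t).re ≤ C := by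
    intro κ
    by_cases h1 : 0 ≤ κ ∧ κ < 1
    · obtain ⟨C, -, hC⟩ := exp_LG h1.1 h1.2
      exact ⟨C, fun _ _ => hC⟩
    · exact ⟨0, fun h2 h3 => absurd ⟨h2, h3⟩ h1⟩
  choose Cf hCf using h
  exact ⟨Cf, fun r x hx z hz => hCf _ (by positivity) hz r x hx z le_rfl⟩

/-- **Boundary values of the logarithm.** -/
theorem edge_values : ∃ Cf Om : ℝ → ℝ, Tendsto Om (𝓝[>] 0) (𝓝 0) ∧
    ∀ (r : ℕ) (x : ℕ → Fin r → ℂ), (∀ p : ℕ, p.Prime → ∀ j, ‖x p j‖ ≤ 1) →
    ∃ g : ℝ → ℂ, Measurable g ∧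
      (∀ ε τ : ℝ, 0 < ε → ∫⁻ t in Set.Icc τ (τ + 1), ENNReal.ofReal (‖LG x ε t - g t‖ ^ 2) ≤
        ENNReal.ofReal (r ^ 2 * Om ε)) ∧
      ∀ z : ℂ, ‖z‖ * r < 1 → ∀ τ : ℝ,
        (∀ ε : ℝ, 0 < ε → ∫⁻ t in Set.Icc τ (τ + 1), ENNReal.ofReal (Real.exp (z * LG x ε t).re) ≤
          ENNReal.ofReal (Cf (‖z‖ * r))) ∧
        ∫⁻ t in Set.Icc τ (τ + 1), ENNReal.ofReal (Real.exp (z * g t).re) ≤
          ENNReal.ofReal (Cf (‖z‖ * r)) := by
  obtain ⟨Cf, hCf⟩ := exists_Cf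
  refine ⟨Cf, Om, Om_tendsto, fun r x hx => ?_⟩
  have hω : Tendsto (fun ε => (r : ℝ) ^ 2 * Om ε) (𝓝[>] 0) (𝓝 0) := by
    have := Om_tendsto.const_mul ((r : ℝ) ^ 2)
    rwa [mul_zero] at this
  obtain ⟨g, e, hg, he0, he, hae⟩ := boundary (G := LG x) (fun ε hε => LG_cont hx hε) hω
    (fun δ ε τ hδ hδε => LG_diff hx hδ hδε τ)
  have hexp : ∀ (z : ℂ) (ε : ℝ), 0 < ε → Continuous fun t => Real.exp (z * LG x ε t).re :=
    fun z ε hε => Real.continuous_exp.comp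
      (Complex.continuous_re.comp (continuous_const.mul (LG_cont hx hε)))
  have hb : ∀ z : ℂ, ‖z‖ * r < 1 → ∀ τ ε : ℝ, 0 < ε →
      ∫⁻ t in Set.Icc τ (τ + 1), ENNReal.ofReal (Real.exp (z * LG x ε t).re) ≤
        ENNReal.ofReal (Cf (‖z‖ * r)) := fun z hz τ ε hε => by
    rw [toL (hexp z ε hε) (fun t => (Real.exp_pos _).le)]
    exact ENNReal.ofReal_le_ofReal (hCf r x hx z hz ε hε τ)
  refine ⟨g, hg, fun ε τ hε => ?_, fun z hz τ => ⟨hb z hz τ, ?_⟩⟩
  · have h1 : ∀ᶠ k in atTop, e k ≤ ε := (he.eventually (Iio_mem_nhds hε)).mono fun k hk => le_of_lt hk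
    obtain ⟨K, hK⟩ := eventually_atTop.1 h1
    refine fatou (F := fun k t => ‖LG x ε t - LG x (e (k + K)) t‖ ^ 2)
      (fun k => ((LG_cont hx hε).sub (LG_cont hx (he0 _))).norm.pow 2) ?_ fun k => ?_
    · refine ae_restrict_of_ae ?_
      filter_upwards [hae] with t ht
      have h2 := ht.comp (tendsto_add_atTop_nat K)
      exact ((tendsto_const_nhds.sub h2).norm).pow 2
    · rw [toL (f := fun t => ‖LG x ε t - LG x (e (k + K)) t‖ ^ 2)
        (((LG_cont hx hε).sub (LG_cont hx (he0 _))).norm.pow 2) (fun t => by positivity)]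
      refine ENNReal.ofReal_le_ofReal ?_
      have h2 := LG_diff hx (he0 (k + K)) (hK (k + K) (by omega)) τ
      simp_rw [norm_sub_rev (LG x ε _)]
      exact h2
  · refine fatou (F := fun k t => Real.exp (z * LG x (e k) t).re) (fun k => hexp z _ (he0 k)) ?_
      fun k => hb z hz τ (e k) (he0 k)
    refine ae_restrict_of_ae ?_
    filter_upwards [hae] with t ht
    exact (Real.continuous_exp.tendsto _).comp
      ((Complex.continuous_re.tendsto _).comp (ht.const_mul z))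

end Pool.Agent.X280.EB
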