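import Pool.Agent.X280.EB.Kernel

/-! Exponential moments of the logarithm of an Euler product, up to the edge. -/

set_option autoImplicit false

namespace Pool.Agent.X280.EB

open Finset MeasureTheory

theorem ch_mul (t : ℝ) (m n : ℕ) (hm : m ≠ 0) (hn : n ≠ 0) :
    ch (Real.log ((m * n : ℕ) : ℝ)) t = ch (Real.log m) t * ch (Real.log n) t := by
  unfold ch
  rw [← Complex.exp_add]
  congr 1
  push_cast
  rw [Real.log_mul (by exact_mod_cast hm) (by exact_mod_cast hn)]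
  push_cast
  ring

/-- The sum over the primes. -/
noncomputable def PP (a : ℕ → ℂ) (ε t : ℝ) : ℂ :=
  ∑' p : Nat.Primes, a p * (((p : ℕ) : ℝ) ^ (-(1 + ε)) : ℝ) * ch (Real.log (p : ℕ)) t

section
variable {a : ℕ → ℂ} {ε : ℝ} {ρ : ℝ}

theorem rpow_le_inv (hε : 0 ≤ ε) {p : ℕ} (hp : p.Prime) : (p : ℝ) ^ (-(1 + ε)) ≤ (p : ℝ)⁻¹ := by
  have hp1 : (1 : ℝ) ≤ p := by exact_mod_cast hp.one_lt.le
  rw [← Real.rpow_neg_one]
  exact Real.rpow_le_rpow_of_exponent_le hp1 (by linarith)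

theorem summable_a (hε : 0 < ε) (ha : ∀ p : ℕ, p.Prime → ‖a p‖ ≤ ρ) (t : ℝ) :
    Summable fun p : Nat.Primes =>
      ‖a p * (((p : ℕ) : ℝ) ^ (-(1 + ε)) : ℝ) * ch (Real.log (p : ℕ)) t‖ := by
  refine Summable.of_nonneg_of_le (fun p => norm_nonneg _) (fun p => ?_)
    ((summable_pr ε hε).mul_left ρ)
  rw [norm_mul, norm_mul, norm_ch, mul_one, Complex.norm_real, Real.norm_eq_abs,
    abs_of_nonneg (by positivity)]
  exact mul_le_mul_of_nonneg_right (ha p p.2) (by positivity)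

/-- **Exponential moments of the sum over the primes.** -/
theorem exp_PP {κ : ℝ} (hκ : 0 ≤ κ) (hκ2 : κ < 1 / 2) : ∃ C : ℝ, 0 ≤ C ∧
    ∀ (a : ℕ → ℂ), (∀ p : ℕ, p.Prime → ‖a p‖ ≤ κ) → ∀ ε : ℝ, 0 < ε → ∀ τ : ℝ,
      ∫ t in τ..(τ + 1), ‖Complex.exp (PP a ε t)‖ ^ 2 ≤ C := by
  obtain ⟨C, hC0, hC⟩ := loc_fin hκ hκ2
  refine ⟨C, hC0, ?_⟩
  intro a ha ε hε τ
  set u : ℕ → ℂ := fun p => a p * ((p : ℝ) ^ (-(1 + ε)) : ℝ) with hu
  have hsu : Summable fun p : Nat.Primes => ‖u p‖ := by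
    have := summable_a hε ha 0
    refine this.congr fun p => ?_
    rw [norm_mul, norm_ch, mul_one]
  have hsn : Summable fun n => ‖co ℂ u n‖ := by
    simp_rw [norm_co]
    exact co_summable (fun p => norm_nonneg _) hsu
  have h1 : ∀ t, HasSum (fun n => co ℂ u n * ch (Real.log n) t) (Complex.exp (PP a ε t)) := by
    intro t
    have e1 : (fun n => co ℂ u n * ch (Real.log n) t) =
        fun n => co ℂ (fun p => u p * ch (Real.log p) t) n := by
      funext n
      exact (co_twist (u := u) (χ := fun n => ch (Real.log n) t)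
        (fun m n hm hn => ch_mul t m n hm hn) (by simp [ch]) n).symm
    have e2 : Summable fun p : Nat.Primes => ‖u p * ch (Real.log (p : ℕ)) t‖ :=
      hsu.congr fun p => by rw [norm_mul (u (p : ℕ)), norm_ch, mul_one]
    have e3 := co_tsum (u := fun p : ℕ => u p * ch (Real.log p) t) e2
    have e4 : Summable fun n => co ℂ u n * ch (Real.log n) t :=
      Summable.of_norm (hsn.congr fun n => by rw [norm_mul, norm_ch, mul_one])
    have e5 : PP a ε t = ∑' p : Nat.Primes, u p * ch (Real.log (p : ℕ)) t := rfl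
    rw [e5, ← e3, ← e1]
    exact e4.hasSum
  have hc : ∀ n ∈ (Set.univ : Set ℕ), n ≠ 0 → ‖co ℂ u n‖ ≤ ff κ n / n := by
    intro n _ hn
    rw [norm_co]
    have h2 := co_rpow (fun _ => κ) 1 n
    have h3 : co ℝ (fun p => ‖u p‖) n ≤ co ℝ (fun p : ℕ => κ * (p : ℝ) ^ (-(1 : ℝ))) n := by
      refine co_mono (fun p => norm_nonneg _) (fun p hp => ?_) n
      simp only [hu]
      rw [norm_mul, Complex.norm_real, Real.norm_eq_abs, abs_of_nonneg (by positivity),
        Real.rpow_neg_one]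
      exact mul_le_mul (ha p hp) (rpow_le_inv hε.le hp) (by positivity) hκ
    rw [h2, Real.rpow_neg_one] at h3
    exact h3
  have h2 : ∀ M : ℕ, ∫ t in τ..(τ + 1), ‖∑ n ∈ Icc 1 M, co ℂ u n * ch (Real.log n) t‖ ^ 2 ≤ C :=
    fun M => hC M _ (fun n hn => hc n trivial (by have := (Finset.mem_Icc.1 hn).1; omega)) τ
  have h3 := lim_sum hsn co_zero h2
  have h4 : ∀ t, ∑' n, co ℂ u n * ch (Real.log n) t = Complex.exp (PP a ε t) := fun t =>
    (h1 t).tsum_eq
  simp_rw [h4] at h3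
  exact h3

end

end Pool.Agent.X280.EB
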