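import Pool.Agent.X280.EB.Limit

/-! Boundary values of `L`-functions of motives on the edge line. -/

set_option autoImplicit false

namespace Pool.Agent.X280.EB

open Finset MeasureTheory Filter Topology
open scoped ENNReal

/-- The Euler product `∏_p ∏_j (1 - α_j(p) p^{-s})⁻¹`. -/
noncomputable def Lf {r : ℕ} (α : ℕ → Fin r → ℂ) (s : ℂ) : ℂ :=
  ∏' p : Nat.Primes, ∏ j, (1 - α p j * ((p : ℕ) : ℂ) ^ (-s))⁻¹

/-- Its logarithm, `∑_p ∑_j -log(1 - α_j(p) p^{-s})` with the principal branch. -/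
noncomputable def logLf {r : ℕ} (α : ℕ → Fin r → ℂ) (s : ℂ) : ℂ :=
  ∑' p : Nat.Primes, ∑ j, Complex.log (1 - α p j * ((p : ℕ) : ℂ) ^ (-s))⁻¹

/-- The point `w/2 + 1 + ε + it`, at the distance `ε` from the edge line. -/
noncomputable def edgePt (w : ℤ) (ε t : ℝ) : ℂ := (w : ℂ) / 2 + 1 + ε + t * Complex.I

/-- Eigenvalues of Frobenius of weight at most `w`. -/
def IsSystem {r : ℕ} (w : ℤ) (α : ℕ → Fin r → ℂ) : Prop :=
  ∀ p : ℕ, p.Prime → ∀ j, ‖α p j‖ ≤ (p : ℝ) ^ ((w : ℝ) / 2)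

/-- normalised eigenvalues -/
noncomputable def nz {r : ℕ} (w : ℤ) (α : ℕ → Fin r → ℂ) (p : ℕ) (j : Fin r) : ℂ :=
  α p j * (((p : ℝ) ^ (-((w : ℝ) / 2)) : ℝ) : ℂ)

section
variable {r : ℕ} {w : ℤ} {α : ℕ → Fin r → ℂ}

theorem nz_le (h : IsSystem w α) : ∀ p : ℕ, p.Prime → ∀ j, ‖nz w α p j‖ ≤ 1 := by
  intro p hp j
  have hp0 : (0 : ℝ) < p := by exact_mod_cast hp.pos
  unfold nz
  rw [norm_mul, Complex.norm_real, Real.norm_eq_abs, abs_of_nonneg (by positivity),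
    Real.rpow_neg hp0.le, ← div_eq_mul_inv, div_le_one (by positivity)]
  exact h p hp j

theorem term_eq (ε t : ℝ) {p : ℕ} (hp : p.Prime) (j : Fin r) :
    α p j * (p : ℂ) ^ (-edgePt w ε t) = zz (nz w α) ε t p j := by
  have hp0 : (0 : ℝ) < p := by exact_mod_cast hp.pos
  have hpc : (p : ℂ) ≠ 0 := by exact_mod_cast hp.ne_zero
  have hlog : Complex.log (p : ℂ) = ((Real.log p : ℝ) : ℂ) := by
    rw [Complex.ofReal_log hp0.le]
    simp
  unfold zz nz ch edgePt
  rw [mul_assoc, mul_assoc]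
  congr 1
  rw [Complex.cpow_def_of_ne_zero hpc, hlog, Real.rpow_def_of_pos hp0, Real.rpow_def_of_pos hp0,
    Complex.ofReal_exp, Complex.ofReal_exp, ← Complex.exp_add, ← Complex.exp_add]
  congr 1
  push_cast
  ring

theorem logLf_eq (ε t : ℝ) : logLf α (edgePt w ε t) = LG (nz w α) ε t := by
  unfold logLf LG
  refine tsum_congr fun p => Finset.sum_congr rfl fun j _ => ?_
  rw [term_eq ε t p.2 j]

theorem Lf_eq (h : IsSystem w α) {ε : ℝ} (hε : 0 < ε) (t : ℝ) :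
    Lf α (edgePt w ε t) = Complex.exp (logLf α (edgePt w ε t)) := by
  have hx := nz_le h
  have h1 : Summable fun p : Nat.Primes => ∑ j, Complex.log (1 - zz (nz w α) ε t p j)⁻¹ := by
    have e1 := (summable_a hε (fun p hp => norm_tr hx hp) t).of_norm.add (RR_summable hx hε.le t)
    refine e1.congr fun p => ?_
    rw [← sum_zz, ← Finset.sum_add_distrib]
    refine Finset.sum_congr rfl fun j _ => ?_
    unfold ph
    ring
  have h2 := h1.hasSum.cexp
  rw [logLf_eq]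
  unfold Lf LG
  rw [← h2.tprod_eq]
  refine tprod_congr fun p => ?_
  simp only [Function.comp, Complex.exp_sum]
  refine Finset.prod_congr rfl fun j _ => ?_
  rw [term_eq ε t p.2 j, Complex.exp_log]
  apply inv_ne_zero
  intro h3
  have h4 : ‖zz (nz w α) ε t p j‖ = 1 := by rw [← sub_eq_zero.mp h3, norm_one]
  obtain ⟨-, h5, h6⟩ := norm_zz hx hε.le t p.2 j
  linarith

end

/-- A value is taken on a null set only. -/
theorem null_value (l : ℝ) (hl : l ≠ 0) (c d : ℂ) (hd : d ≠ 0) : ∀ᵐ t : ℝ, d * ch l t ≠ c := by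
  have hcount : {t : ℝ | d * ch l t = c}.Countable := by
    by_cases hne : {t : ℝ | d * ch l t = c}.Nonempty
    · obtain ⟨t₀, ht₀⟩ := hne
      refine (Set.countable_range fun n : ℤ => t₀ + 2 * Real.pi * n / l).mono ?_
      intro t ht
      have h1 : ch l t = ch l t₀ := mul_left_cancel₀ hd (ht.trans ht₀.symm)
      unfold ch at h1
      rw [Complex.exp_eq_exp_iff_exists_int] at h1
      obtain ⟨n, hn⟩ := h1
      have h2 := congrArg Complex.im hn
      simp at h2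
      refine ⟨-n, ?_⟩
      simp only
      push_cast
      field_simp
      linarith
    · rw [Set.not_nonempty_iff_eq_empty.1 hne]
      exact Set.countable_empty
  have := hcount.ae_notMem volume
  filter_upwards [this] with t ht h
  exact ht h

/-- the finitely many remaining factors -/
theorem null_poly {p : ℕ} (hp : p.Prime) (w : ℤ) {B : Polynomial ℂ} (hB : B ≠ 0) :
    ∀ᵐ t : ℝ, B.eval ((p : ℂ) ^ (-edgePt w 0 t)) ≠ 0 := by
  have hp0 : (0 : ℝ) < p := by exact_mod_cast hp.pos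
  have hpc : (p : ℂ) ≠ 0 := by exact_mod_cast hp.ne_zero
  have hl : Real.log p ≠ 0 := (Real.log_pos (by exact_mod_cast hp.one_lt)).ne'
  set d : ℂ := (p : ℂ) ^ (-edgePt w 0 0) with hd
  have hd0 : d ≠ 0 := by rw [hd, Complex.cpow_def_of_ne_zero hpc]; exact Complex.exp_ne_zero _
  have he : ∀ t : ℝ, (p : ℂ) ^ (-edgePt w 0 t) = d * ch (Real.log p) t := by
    intro t
    have hlog : Complex.log (p : ℂ) = ((Real.log p : ℝ) : ℂ) := by
      rw [Complex.ofReal_log hp0.le]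
      simp
    rw [hd, Complex.cpow_def_of_ne_zero hpc, Complex.cpow_def_of_ne_zero hpc, hlog]
    unfold ch edgePt
    rw [← Complex.exp_add]
    congr 1
    push_cast
    ring
  have h1 : ∀ c ∈ B.roots.toFinset, ∀ᵐ t : ℝ, d * ch (Real.log p) t ≠ c := fun c _ =>
    null_value _ hl c d hd0
  have h2 := (Finset.eventually_all B.roots.toFinset).2 h1
  filter_upwards [h2] with t ht h3
  rw [he] at h3
  refine ht (d * ch (Real.log p) t) ?_ rfl
  rw [Multiset.mem_toFinset]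
  exact (Polynomial.mem_roots hB).2 h3

/-- the limit of the remaining factors -/
theorem poly_tendsto {p : ℕ} (hp : p.Prime) (w : ℤ) (B : Polynomial ℂ) (t : ℝ) :
    Tendsto (fun ε : ℝ => B.eval ((p : ℂ) ^ (-edgePt w ε t))) (𝓝[>] 0)
      (𝓝 (B.eval ((p : ℂ) ^ (-edgePt w 0 t)))) := by
  have hpc : (p : ℂ) ≠ 0 := by exact_mod_cast hp.ne_zero
  have h1 : Continuous fun ε : ℝ => (p : ℂ) ^ (-edgePt w ε t) := by
    refine Continuous.const_cpow ?_ (Or.inl hpc)
    unfold edgePt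
    fun_prop
  have h2 : Continuous fun ε : ℝ => B.eval ((p : ℂ) ^ (-edgePt w ε t)) := B.continuous.comp h1
  exact (h2.tendsto 0).mono_left nhdsWithin_le_nhds

/-- **Boundary values.** -/
theorem edge_motive : ∃ Cf Om : ℝ → ℝ, Tendsto Om (𝓝[>] 0) (𝓝 0) ∧
    ∀ (w : ℤ) (r : ℕ) (α : ℕ → Fin r → ℂ), IsSystem w α →
    ∃ g : ℝ → ℂ, Measurable g ∧
      (∀ᵐ t : ℝ, Tendsto (fun ε => logLf α (edgePt w ε t)) (𝓝[>] 0) (𝓝 (g t))) ∧
      (∀ (S : Finset ℕ) (B : ℕ → Polynomial ℂ), (∀ p ∈ S, p.Prime ∧ B p ≠ 0) →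
        ∀ᵐ t : ℝ, ∃ c : ℂ, c ≠ 0 ∧ Tendsto (fun ε =>
          (∏ p ∈ S, ((B p).eval ((p : ℂ) ^ (-edgePt w ε t)))⁻¹) * Lf α (edgePt w ε t))
          (𝓝[>] 0) (𝓝 c)) ∧
      (∀ ε τ : ℝ, 0 < ε → ∫⁻ t in Set.Icc τ (τ + 1),
        ENNReal.ofReal (‖logLf α (edgePt w ε t) - g t‖ ^ 2) ≤ ENNReal.ofReal (r ^ 2 * Om ε)) ∧
      ∀ z : ℂ, ‖z‖ * r < 1 → ∀ τ : ℝ,
        (∀ ε : ℝ, 0 < ε → ∫⁻ t in Set.Icc τ (τ + 1),
          ENNReal.ofReal ‖Complex.exp (z * logLf α (edgePt w ε t))‖ ≤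
            ENNReal.ofReal (Cf (‖z‖ * r))) ∧
        ∫⁻ t in Set.Icc τ (τ + 1), ENNReal.ofReal ‖Complex.exp (z * g t)‖ ≤
          ENNReal.ofReal (Cf (‖z‖ * r)) := by
  obtain ⟨Cf, hCf⟩ := exists_Cf
  refine ⟨Cf, Om, Om_tendsto, fun w r α hα => ?_⟩
  set x := nz w α with hxd
  have hx : ∀ p : ℕ, p.Prime → ∀ j, ‖x p j‖ ≤ 1 := nz_le hα
  have hω : Tendsto (fun ε => (r : ℝ) ^ 2 * Om ε) (𝓝[>] 0) (𝓝 0) := by
    have := Om_tendsto.const_mul ((r : ℝ) ^ 2)
    rwa [mul_zero] at this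
  obtain ⟨g, e, hg, he0, he, hae⟩ := boundary (G := LG x) (fun ε hε => LG_cont hx hε) hω
    (fun δ ε τ hδ hδε => LG_diff hx hδ hδε τ)
  have hrad := radial hx he0 he hae
  have hexp : ∀ (z : ℂ) (ε : ℝ), 0 < ε → Continuous fun t => ‖Complex.exp (z * LG x ε t)‖ :=
    fun z ε hε => (Complex.continuous_exp.comp (continuous_const.mul (LG_cont hx hε))).norm
  have hb : ∀ z : ℂ, ‖z‖ * r < 1 → ∀ τ ε : ℝ, 0 < ε →
      ∫⁻ t in Set.Icc τ (τ + 1), ENNReal.ofReal ‖Complex.exp (z * LG x ε t)‖ ≤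
        ENNReal.ofReal (Cf (‖z‖ * r)) := fun z hz τ ε hε => by
    rw [toL (f := fun t => ‖Complex.exp (z * LG x ε t)‖) (hexp z ε hε) (fun t => norm_nonneg _)]
    simp_rw [Complex.norm_exp]
    exact ENNReal.ofReal_le_ofReal (hCf r x hx z hz ε hε τ)
  refine ⟨g, hg, ?_, ?_, fun ε τ hε => ?_, fun z hz τ => ⟨fun ε hε => ?_, ?_⟩⟩
  · filter_upwards [hrad] with t ht
    simp_rw [logLf_eq]
    exact ht
  · intro S B hSB
    have h1 : ∀ p ∈ S, ∀ᵐ t : ℝ, (B p).eval ((p : ℂ) ^ (-edgePt w 0 t)) ≠ 0 := fun p hp =>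
      null_poly (hSB p hp).1 w (hSB p hp).2
    have h2 := (Finset.eventually_all S).2 h1
    filter_upwards [hrad, h2] with t ht ht2
    refine ⟨(∏ p ∈ S, ((B p).eval ((p : ℂ) ^ (-edgePt w 0 t)))⁻¹) * Complex.exp (g t), ?_, ?_⟩
    · exact mul_ne_zero (Finset.prod_ne_zero_iff.2 fun p hp => inv_ne_zero (ht2 p hp))
        (Complex.exp_ne_zero _)
    · refine Tendsto.mul (tendsto_finsetProd _ fun p hp => ?_) ?_
      · exact (poly_tendsto (hSB p hp).1 w (B p) t).inv₀ (ht2 p hp)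
      · have h3 : Tendsto (fun ε => Complex.exp (LG x ε t)) (𝓝[>] 0) (𝓝 (Complex.exp (g t))) :=
          (Complex.continuous_exp.tendsto _).comp ht
        refine h3.congr' ?_
        filter_upwards [self_mem_nhdsWithin] with ε hε
        rw [Lf_eq hα hε, logLf_eq]
  · have h1 : ∀ᶠ k in atTop, e k ≤ ε := (he.eventually (Iio_mem_nhds hε)).mono fun k hk => le_of_lt hk
    obtain ⟨K, hK⟩ := eventually_atTop.1 h1
    simp_rw [logLf_eq]
    refine fatou (F := fun k t => ‖LG x ε t - LG x (e (k + K)) t‖ ^ 2)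
      (fun k => ((LG_cont hx hε).sub (LG_cont hx (he0 _))).norm.pow 2) ?_ fun k => ?_
    · refine ae_restrict_of_ae ?_
      filter_upwards [hae] with t ht
      have h2 := ht.comp (tendsto_add_atTop_nat K)
      exact ((tendsto_const_nhds.sub h2).norm).pow 2
    · rw [toL (f := fun t => ‖LG x ε t - LG x (e (k + K)) t‖ ^ 2)
        (((LG_cont hx hε).sub (LG_cont hx (he0 _))).norm.pow 2) (fun t => by positivity)]
      refine ENNReal.ofReal_le_ofReal ?_
      have h2 := LG_diff hx (he0 (k + K)) (hK (k + K) (by omega)) τ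
      simp_rw [norm_sub_rev (LG x ε _)]
      exact h2
  · simp_rw [logLf_eq]
    exact hb z hz τ ε hε
  · refine fatou (F := fun k t => ‖Complex.exp (z * LG x (e k) t)‖) (fun k => hexp z _ (he0 k)) ?_
      fun k => hb z hz τ (e k) (he0 k)
    refine ae_restrict_of_ae ?_
    filter_upwards [hae] with t ht
    exact ((Complex.continuous_exp.tendsto _).comp (ht.const_mul z)).norm

/-- `r` copies of the zeta function -/
theorem Lf_one (r : ℕ) {s : ℂ} (hs : 1 < s.re) :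
    Lf (fun _ (_ : Fin r) => 1) s = riemannZeta s ^ r := by
  unfold Lf
  have h := riemannZeta_eulerProduct_hasProd hs
  have h2 := h.pow r
  rw [← h2.tprod_eq]
  refine tprod_congr fun p => ?_
  simp

theorem zeta_int : ∀ B : ℝ, ∃ ε : ℝ, 0 < ε ∧
    B < ∫ t in (0 : ℝ)..1, ‖riemannZeta (1 + ε + t * Complex.I)‖ := by
  intro B
  have h1 := riemannZeta_residue_one
  rw [Metric.tendsto_nhdsWithin_nhds] at h1
  obtain ⟨η, hη, h2⟩ := h1 (1 / 2) (by norm_num)
  set ζ := min (η / 2) 1 with hζ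
  have hζ0 : 0 < ζ := lt_min (by positivity) one_pos
  have hζ1 : ζ ≤ 1 := min_le_right _ _
  have hζη : ζ ≤ η / 2 := min_le_left _ _
  set ε := ζ * Real.exp (-(2 * |B| + 1)) with hε
  have hε0 : 0 < ε := by positivity
  have hεζ : ε < ζ := by
    have : Real.exp (-(2 * |B| + 1)) < 1 := (Real.exp_lt_exp.2 (by
      have := abs_nonneg B; linarith)).trans_eq Real.exp_zero
    rw [hε]
    nlinarith
  refine ⟨ε, hε0, ?_⟩
  have hre : ∀ t : ℝ, (1 + (ε : ℂ) + t * Complex.I).re = 1 + ε := fun t => by simp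
  have hcont : Continuous fun t : ℝ => ‖riemannZeta (1 + ε + t * Complex.I)‖ := by
    refine Continuous.norm ?_
    rw [continuous_iff_continuousAt]
    intro t
    have hne : (1 + (ε : ℂ) + t * Complex.I) ≠ 1 := fun h => by
      have := congrArg Complex.re h
      rw [hre, Complex.one_re] at this
      linarith
    exact (differentiableAt_riemannZeta hne).continuousAt.comp
      (f := fun t : ℝ => 1 + (ε : ℂ) + t * Complex.I) (by fun_prop)
  have h3 : ∀ t : ℝ, 0 ≤ t → t ≤ ζ → 1 / 2 * (ε + t)⁻¹ ≤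
      ‖riemannZeta (1 + ε + t * Complex.I)‖ := by
    intro t ht0 ht
    set s : ℂ := 1 + ε + t * Complex.I with hs
    have hs1 : s - 1 = ε + t * Complex.I := by rw [hs]; ring
    have hn : ‖s - 1‖ ≤ ε + t := by
      rw [hs1]
      refine (norm_add_le _ _).trans ?_
      rw [norm_mul, Complex.norm_I, mul_one, Complex.norm_real, Complex.norm_real,
        Real.norm_eq_abs, Real.norm_eq_abs, abs_of_pos hε0, abs_of_nonneg ht0]
    have hsne : s ≠ 1 := fun h => by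
      have := congrArg Complex.re h
      rw [hs, hre, Complex.one_re] at this
      linarith
    have h4 := h2 (x := s) hsne (by rw [dist_eq_norm]; linarith)
    rw [dist_eq_norm] at h4
    have h5 : 1 / 2 ≤ ‖(s - 1) * riemannZeta s‖ := by
      have h6 := norm_sub_norm_le (1 : ℂ) (1 - (s - 1) * riemannZeta s)
      rw [norm_one, sub_sub_cancel, norm_sub_rev 1] at h6
      linarith
    rw [norm_mul] at h5
    have h7 : 0 < ‖s - 1‖ := norm_pos_iff.2 (sub_ne_zero.2 hsne)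
    have h8 : 0 < ε + t := by linarith
    rw [← div_eq_mul_inv, div_le_iff₀ h8]
    calc 1 / 2 ≤ ‖s - 1‖ * ‖riemannZeta s‖ := h5
      _ ≤ (ε + t) * ‖riemannZeta s‖ := mul_le_mul_of_nonneg_right hn (norm_nonneg _)
      _ = _ := mul_comm _ _
  have h4 : ∫ t in (0 : ℝ)..ζ, ‖riemannZeta (1 + ε + t * Complex.I)‖ ≤
      ∫ t in (0 : ℝ)..1, ‖riemannZeta (1 + ε + t * Complex.I)‖ := by
    refine intervalIntegral.integral_mono_interval le_rfl hζ0.le hζ1
      (Eventually.of_forall fun t => norm_nonneg _) (hcont.intervalIntegrable _ _)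
  have hci : ContinuousOn (fun t : ℝ => 1 / 2 * (ε + t)⁻¹) (Set.uIcc 0 ζ) := by
    rw [Set.uIcc_of_le hζ0.le]
    refine continuousOn_const.mul (ContinuousOn.inv₀ (by fun_prop) fun t ht => ?_)
    have := ht.1
    positivity
  have h5 : ∫ t in (0 : ℝ)..ζ, 1 / 2 * (ε + t)⁻¹ ≤
      ∫ t in (0 : ℝ)..ζ, ‖riemannZeta (1 + ε + t * Complex.I)‖ :=
    intervalIntegral.integral_mono_on hζ0.le hci.intervalIntegrable
      (hcont.intervalIntegrable _ _) fun t ht => h3 t ht.1 ht.2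
  have h6 : ∫ t in (0 : ℝ)..ζ, 1 / 2 * (ε + t)⁻¹ = 1 / 2 * Real.log ((ε + ζ) / ε) := by
    rw [intervalIntegral.integral_const_mul,
      intervalIntegral.integral_comp_add_left (f := fun t : ℝ => t⁻¹), add_zero,
      integral_inv_of_pos hε0 (by linarith)]
  have h7 : 2 * |B| + 1 ≤ Real.log ((ε + ζ) / ε) := by
    rw [Real.le_log_iff_exp_le (by positivity), le_div_iff₀ hε0]
    have : Real.exp (2 * |B| + 1) * ε = ζ := by
      rw [hε, mul_left_comm, ← Real.exp_add]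
      simp
    rw [this]
    linarith
  have h8 := le_abs_self B
  linarith

/-- The range of the exponents is sharp. -/
theorem sharp (r : ℕ) (hr : 1 ≤ r) : IsSystem 0 (fun _ (_ : Fin r) => 1) ∧
    ∀ B : ℝ, ∃ ε : ℝ, 0 < ε ∧
      B < ∫ t in (0 : ℝ)..1, ‖Lf (fun _ (_ : Fin r) => 1) (edgePt 0 ε t)‖ ^ ((1 : ℝ) / r) := by
  refine ⟨fun p hp j => by simp, fun B => ?_⟩
  obtain ⟨ε, hε, h⟩ := zeta_int B
  refine ⟨ε, hε, ?_⟩
  have h1 : ∀ t : ℝ, ‖Lf (fun _ (_ : Fin r) => 1) (edgePt 0 ε t)‖ ^ ((1 : ℝ) / r) =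
      ‖riemannZeta (1 + ε + t * Complex.I)‖ := by
    intro t
    have h2 : edgePt 0 ε t = 1 + ε + t * Complex.I := by unfold edgePt; push_cast; ring
    have hre : (1 + (ε : ℂ) + t * Complex.I).re = 1 + ε := by simp
    rw [h2, Lf_one r (by rw [hre]; linarith), norm_pow, ← Real.rpow_natCast,
      ← Real.rpow_mul (norm_nonneg _)]
    have : (r : ℝ) * (1 / r) = 1 := by
      have : (r : ℝ) ≠ 0 := by exact_mod_cast (by omega : r ≠ 0)
      field_simp
    rw [this, Real.rpow_one]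
  simp_rw [h1]
  exact h

end Pool.Agent.X280.EB
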