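import Pool.Agent.X280.EB.Sieve

/-! Local mean squares of Dirichlet polynomials. -/

set_option autoImplicit false

namespace Pool.Agent.X280.EB

open Finset MeasureTheory

/-- `e^{-i t l}` -/
noncomputable def ch (l t : ℝ) : ℂ := Complex.exp (-((t * l : ℝ) : ℂ) * Complex.I)

theorem norm_ch (l t : ℝ) : ‖ch l t‖ = 1 := by
  unfold ch
  rw [← Complex.ofReal_neg, Complex.norm_exp_ofReal_mul_I]

theorem cont_ch (l : ℝ) : Continuous (ch l) := by
  unfold ch
  fun_prop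

theorem ch_conj (l m t : ℝ) : ch l t * (starRingEnd ℂ) (ch m t) = ch (l - m) t := by
  unfold ch
  rw [← Complex.exp_conj, ← Complex.exp_add]
  congr 1
  simp only [map_mul, map_neg, Complex.conj_ofReal, Complex.conj_I]
  push_cast
  ring

/-- the Gaussian integral -/
theorem gauss (a τ : ℝ) :
    Integrable (fun t : ℝ => ((Real.exp (-(t - τ) ^ 2) : ℝ) : ℂ) * ch a t) ∧
    ‖∫ t : ℝ, ((Real.exp (-(t - τ) ^ 2) : ℝ) : ℂ) * ch a t‖ ≤
      Real.sqrt Real.pi * Real.exp (-(a ^ 2 / 4)) := by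
  have e1 : (fun t : ℝ => ((Real.exp (-(t - τ) ^ 2) : ℝ) : ℂ) * ch a t) =
      fun t : ℝ => Complex.exp ((-1 : ℂ) * t ^ 2 + (2 * τ - a * Complex.I) * t + (-(τ : ℂ) ^ 2)) := by
    funext t
    unfold ch
    rw [Complex.ofReal_exp, ← Complex.exp_add]
    congr 1
    push_cast
    ring
  have hb : (-1 : ℂ).re < 0 := by simp
  rw [e1]
  refine ⟨integrable_cexp_quadratic' hb _ _, ?_⟩
  rw [integral_cexp_quadratic hb]
  rw [norm_mul]
  have h1 : ‖((Real.pi : ℂ) / -(-1)) ^ (1 / 2 : ℂ)‖ = Real.sqrt Real.pi := by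
    have : ((Real.pi : ℂ) / -(-1)) ^ (1 / 2 : ℂ) = ((Real.pi ^ (1 / 2 : ℝ) : ℝ) : ℂ) := by
      rw [Complex.ofReal_cpow Real.pi_pos.le]
      push_cast
      norm_num
    rw [this, Complex.norm_real, Real.norm_eq_abs, abs_of_nonneg (by positivity), Real.sqrt_eq_rpow]
  rw [h1]
  refine mul_le_mul_of_nonneg_left (le_of_eq ?_) (Real.sqrt_nonneg _)
  rw [Complex.norm_exp]
  congr 1
  have : (-(τ : ℂ) ^ 2 - (2 * τ - a * Complex.I) ^ 2 / (4 * -1)) =
      ((-(a ^ 2 / 4) : ℝ) : ℂ) - ((a * τ : ℝ) : ℂ) * Complex.I := by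
    have hI := Complex.I_sq
    push_cast
    ring_nf
    rw [hI]
    ring
  rw [this, Complex.sub_re, Complex.ofReal_re, Complex.re_ofReal_mul, Complex.I_re, mul_zero,
    sub_zero]

/-- The Gaussian kernel. -/
theorem gauss_bound (s : Finset ℕ) (c : ℕ → ℂ) (l : ℕ → ℝ) (τ : ℝ) :
    ∫ t in τ..(τ + 1), ‖∑ n ∈ s, c n * ch (l n) t‖ ^ 2 ≤
      Real.exp 1 * (Real.sqrt Real.pi *
        ∑ n ∈ s, ∑ m ∈ s, ‖c n‖ * ‖c m‖ * Real.exp (-((l n - l m) ^ 2 / 4))) := by
  set S : ℝ → ℂ := fun t => ∑ n ∈ s, c n * ch (l n) t with hS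
  have hSc : Continuous S := continuous_finsetSum _ fun n _ => continuous_const.mul (cont_ch _)
  have h1 : ∀ t, ((‖S t‖ ^ 2 : ℝ) : ℂ) = ∑ n ∈ s, ∑ m ∈ s,
      (c n * (starRingEnd ℂ) (c m)) * ch (l n - l m) t := by
    intro t
    have : ((‖S t‖ ^ 2 : ℝ) : ℂ) = S t * (starRingEnd ℂ) (S t) := by
      rw [Complex.mul_conj, Complex.normSq_eq_norm_sq]
    rw [this, hS]
    simp only [map_sum, map_mul]
    rw [Finset.sum_mul_sum]
    refine Finset.sum_congr rfl fun n _ => Finset.sum_congr rfl fun m _ => ?_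
    rw [← ch_conj]
    ring
  set G : ℝ → ℂ := fun t => ((Real.exp (-(t - τ) ^ 2) : ℝ) : ℂ) * ((‖S t‖ ^ 2 : ℝ) : ℂ) with hG
  have h2 : G = fun t => ∑ n ∈ s, ∑ m ∈ s, (c n * (starRingEnd ℂ) (c m)) *
      (((Real.exp (-(t - τ) ^ 2) : ℝ) : ℂ) * ch (l n - l m) t) := by
    funext t
    simp only [hG]
    rw [h1, Finset.mul_sum]
    refine Finset.sum_congr rfl fun n _ => ?_
    rw [Finset.mul_sum]
    exact Finset.sum_congr rfl fun m _ => by ring
  have hGi : Integrable G := by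
    rw [h2]
    exact integrable_finsetSum _ fun n _ => integrable_finsetSum _ fun m _ =>
      (gauss (l n - l m) τ).1.const_mul _
  have h3 : ‖∫ t, G t‖ ≤ ∑ n ∈ s, ∑ m ∈ s, ‖c n‖ * ‖c m‖ *
      (Real.sqrt Real.pi * Real.exp (-((l n - l m) ^ 2 / 4))) := by
    rw [h2, integral_finsetSum _ fun n _ => integrable_finsetSum _ fun m _ =>
      (gauss (l n - l m) τ).1.const_mul _]
    refine (norm_sum_le _ _).trans (Finset.sum_le_sum fun n _ => ?_)
    rw [integral_finsetSum _ fun m _ => (gauss (l n - l m) τ).1.const_mul _]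
    refine (norm_sum_le _ _).trans (Finset.sum_le_sum fun m _ => ?_)
    rw [integral_const_mul, norm_mul, norm_mul, RCLike.norm_conj]
    exact mul_le_mul_of_nonneg_left (gauss _ τ).2 (by positivity)
  set g : ℝ → ℝ := fun t => Real.exp (-(t - τ) ^ 2) * ‖S t‖ ^ 2 with hg
  have hgG : ∀ t, G t = ((g t : ℝ) : ℂ) := fun t => by
    simp only [hG, hg]
    push_cast
    ring
  have hgi : Integrable g := by
    have := hGi.re
    refine this.congr (Filter.Eventually.of_forall fun t => ?_)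
    show (G t).re = g t
    rw [hgG]
    exact Complex.ofReal_re _
  have hg0 : ∀ t, 0 ≤ g t := fun t => by simp only [hg]; positivity
  have h4 : ‖∫ t, G t‖ = ∫ t, g t := by
    have : ∫ t, G t = ((∫ t, g t : ℝ) : ℂ) := by
      simp_rw [hgG]
      exact integral_ofReal
    rw [this, Complex.norm_real, Real.norm_eq_abs, abs_of_nonneg (integral_nonneg hg0)]
  have h5 : ∫ t in τ..(τ + 1), ‖S t‖ ^ 2 ≤ ∫ t in τ..(τ + 1), Real.exp 1 * g t := by
    refine intervalIntegral.integral_mono_on (by linarith)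
      ((hSc.norm.pow 2).intervalIntegrable _ _)
      ((hgi.intervalIntegrable).const_mul _) fun t ht => ?_
    simp only [hg]
    have h6 : 1 ≤ Real.exp 1 * Real.exp (-(t - τ) ^ 2) := by
      rw [← Real.exp_add]
      refine Real.one_le_exp ?_
      nlinarith [ht.1, ht.2]
    calc ‖S t‖ ^ 2 ≤ (Real.exp 1 * Real.exp (-(t - τ) ^ 2)) * ‖S t‖ ^ 2 :=
          le_mul_of_one_le_left (by positivity) h6
      _ = _ := by ring
  have h6 : ∫ t in τ..(τ + 1), Real.exp 1 * g t ≤ Real.exp 1 * ∫ t, g t := by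
    rw [intervalIntegral.integral_const_mul, intervalIntegral.integral_of_le (by linarith)]
    refine mul_le_mul_of_nonneg_left ?_ (Real.exp_pos _).le
    exact setIntegral_le_integral hgi (Filter.Eventually.of_forall hg0)
  refine h5.trans (h6.trans (mul_le_mul_of_nonneg_left ?_ (Real.exp_pos _).le))
  rw [← h4]
  refine h3.trans (le_of_eq ?_)
  rw [Finset.mul_sum]
  refine Finset.sum_congr rfl fun n _ => ?_
  rw [Finset.mul_sum]
  exact Finset.sum_congr rfl fun m _ => by ring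

theorem gauss_le_exp (x : ℝ) : Real.exp (-(x ^ 2 / 4)) ≤ Real.exp 1 * Real.exp (-|x|) := by
  rw [← Real.exp_add, Real.exp_le_exp]
  nlinarith [sq_nonneg (|x| - 2), sq_abs x]

theorem exp_log_le {n m : ℕ} (hn : 1 ≤ n) (hnm : n ≤ m) :
    Real.exp (-|Real.log n - Real.log m|) = n / m := by
  have hn0 : (0 : ℝ) < n := by exact_mod_cast hn
  have hm0 : (0 : ℝ) < m := by exact_mod_cast (hn.trans hnm)
  have h1 : Real.log n ≤ Real.log m := Real.log_le_log hn0 (by exact_mod_cast hnm)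
  rw [abs_of_nonpos (by linarith), neg_neg, Real.exp_sub, Real.exp_log hn0, Real.exp_log hm0]

/-- the double sum -/
theorem dblh {κ B : ℝ} (hκ : 0 ≤ κ) (hB : 0 ≤ B) (M : ℕ) (c h : ℕ → ℝ) (hc0 : ∀ n, 0 ≤ c n)
    (hc : ∀ n ∈ Icc 1 M, c n ≤ B * (ff κ n / n)) (hc' : ∀ n ∈ Icc 1 M, c n ≤ h n * (B * (ff κ n / n))) :
    ∑ n ∈ Icc 1 M, ∑ m ∈ Icc 1 M, c n * c m *
      Real.exp (-((Real.log n - Real.log m) ^ 2 / 4)) ≤
      2 * Real.exp 1 * B ^ 2 * ∑ m ∈ Icc 1 M, h m * (ff κ m * WS κ m / (m : ℝ) ^ 2) := by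
  classical
  set F : ℕ → ℕ → ℝ := fun n m => c n * c m * Real.exp (-((Real.log n - Real.log m) ^ 2 / 4)) with hF
  have hF0 : ∀ n m, 0 ≤ F n m := fun n m =>
    mul_nonneg (mul_nonneg (hc0 n) (hc0 m)) (Real.exp_pos _).le
  have hsymm : ∀ n m, F n m = F m n := fun n m => by
    simp only [hF]
    rw [mul_comm (c n) (c m)]
    congr 2
    ring
  set T := ∑ m ∈ Icc 1 M, ∑ n ∈ Icc 1 m, F n m with hT
  have h1 : ∑ n ∈ Icc 1 M, ∑ m ∈ Icc 1 M, F n m ≤ T + T := by
    have e1 : ∀ n ∈ Icc 1 M, ∑ m ∈ Icc 1 M, F n m ≤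
        (∑ m ∈ Icc 1 n, F m n) + ∑ m ∈ Icc 1 M with n ≤ m, F n m := by
      intro n hn
      rw [← Finset.sum_filter_add_sum_filter_not (Icc 1 M) (fun m => n ≤ m), add_comm]
      refine add_le_add_left ?_ _
      have : ∀ m, F n m = F m n := fun m => hsymm n m
      simp_rw [this]
      refine Finset.sum_le_sum_of_subset_of_nonneg ?_ fun m _ _ => hF0 m n
      intro m hm
      obtain ⟨h2, h3⟩ := Finset.mem_filter.1 hm
      exact Finset.mem_Icc.2 ⟨(Finset.mem_Icc.1 h2).1, by omega⟩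
    refine (Finset.sum_le_sum e1).trans ?_
    rw [Finset.sum_add_distrib]
    refine add_le_add le_rfl (le_of_eq ?_)
    have e2 : ∀ n ∈ Icc 1 M, ∑ m ∈ Icc 1 M with n ≤ m, F n m =
        ∑ m ∈ Icc 1 M, if n ≤ m then F n m else 0 := fun n _ => Finset.sum_filter _ _
    rw [Finset.sum_congr rfl e2, Finset.sum_comm]
    refine Finset.sum_congr rfl fun m hm => ?_
    rw [← Finset.sum_filter]
    refine Finset.sum_congr ?_ fun _ _ => rfl
    ext n
    simp only [Finset.mem_filter, Finset.mem_Icc] at hm ⊢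
    omega
  have h2 : T ≤ Real.exp 1 * B ^ 2 * ∑ m ∈ Icc 1 M, h m * (ff κ m * WS κ m / (m : ℝ) ^ 2) := by
    rw [hT, Finset.mul_sum]
    refine Finset.sum_le_sum fun m hm => ?_
    obtain ⟨h3, h4⟩ := Finset.mem_Icc.1 hm
    have hm0 : (0 : ℝ) < m := by exact_mod_cast h3
    unfold WS
    rw [Finset.mul_sum, Finset.sum_div, Finset.mul_sum, Finset.mul_sum]
    refine Finset.sum_le_sum fun n hn => ?_
    obtain ⟨h5, h6⟩ := Finset.mem_Icc.1 hn
    have hn0 : (0 : ℝ) < n := by exact_mod_cast h5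
    have h7 : Real.exp (-((Real.log n - Real.log m) ^ 2 / 4)) ≤ Real.exp 1 * (n / m) := by
      rw [← exp_log_le h5 h6]
      exact gauss_le_exp _
    have h8 := hc n (Finset.mem_Icc.2 ⟨h5, h6.trans h4⟩)
    have h9 := hc' m hm
    have h10 : 0 ≤ B * (ff κ n / n) := mul_nonneg hB (div_nonneg (ff_nonneg hκ n) hn0.le)
    calc F n m ≤ (B * (ff κ n / n)) * (h m * (B * (ff κ m / m))) * (Real.exp 1 * (n / m)) := by
          simp only [hF]
          exact mul_le_mul (mul_le_mul h8 h9 (hc0 m) h10) h7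
            (Real.exp_pos _).le (mul_nonneg h10 ((hc0 m).trans h9))
      _ = _ := by field_simp
  have h3 : 2 * Real.exp 1 * B ^ 2 * ∑ m ∈ Icc 1 M, h m * (ff κ m * WS κ m / (m : ℝ) ^ 2) =
      Real.exp 1 * B ^ 2 * ∑ m ∈ Icc 1 M, h m * (ff κ m * WS κ m / (m : ℝ) ^ 2) +
        Real.exp 1 * B ^ 2 * ∑ m ∈ Icc 1 M, h m * (ff κ m * WS κ m / (m : ℝ) ^ 2) := by ring
  rw [h3]
  exact h1.trans (add_le_add h2 h2)

theorem dbl {κ : ℝ} (hκ : 0 ≤ κ) (M : ℕ) (c : ℕ → ℝ) (hc0 : ∀ n, 0 ≤ c n)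
    (hc : ∀ n ∈ Icc 1 M, c n ≤ ff κ n / n) :
    ∑ n ∈ Icc 1 M, ∑ m ∈ Icc 1 M, c n * c m *
      Real.exp (-((Real.log n - Real.log m) ^ 2 / 4)) ≤
      2 * Real.exp 1 * ∑ m ∈ Icc 1 M, ff κ m * WS κ m / (m : ℝ) ^ 2 := by
  have := dblh hκ zero_le_one M c (fun _ => 1) hc0 (fun n hn => by rw [one_mul]; exact hc n hn)
    (fun n hn => by rw [one_mul, one_mul]; exact hc n hn)
  simpa using this

/-- **Local mean square.** -/
theorem loc_fin {κ : ℝ} (hκ : 0 ≤ κ) (hκ2 : κ < 1 / 2) : ∃ C : ℝ, 0 ≤ C ∧ ∀ (M : ℕ) (c : ℕ → ℂ),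
    (∀ n ∈ Icc 1 M, ‖c n‖ ≤ ff κ n / n) → ∀ τ : ℝ,
    ∫ t in τ..(τ + 1), ‖∑ n ∈ Icc 1 M, c n * ch (Real.log n) t‖ ^ 2 ≤ C := by
  obtain ⟨C, hC⟩ := kernel hκ hκ2
  have hC0 : 0 ≤ C := by simpa using hC 0
  refine ⟨Real.exp 1 * (Real.sqrt Real.pi * (2 * Real.exp 1 * C)), by positivity, ?_⟩
  intro M c hc τ
  refine (gauss_bound (Icc 1 M) c (fun n => Real.log n) τ).trans ?_
  refine mul_le_mul_of_nonneg_left (mul_le_mul_of_nonneg_left ?_ (Real.sqrt_nonneg _))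
    (Real.exp_pos _).le
  refine (dbl hκ M (fun n => ‖c n‖) (fun n => norm_nonneg _) hc).trans ?_
  exact mul_le_mul_of_nonneg_left (hC M) (by positivity)

/-- passage to the limit -/
theorem lim_sum {c : ℕ → ℂ} (hs : Summable fun n => ‖c n‖) (h0 : c 0 = 0) {C τ : ℝ}
    (h : ∀ M : ℕ, ∫ t in τ..(τ + 1), ‖∑ n ∈ Icc 1 M, c n * ch (Real.log n) t‖ ^ 2 ≤ C) :
    ∫ t in τ..(τ + 1), ‖∑' n, c n * ch (Real.log n) t‖ ^ 2 ≤ C := by
  have h1 : ∀ t, HasSum (fun n => c n * ch (Real.log n) t) (∑' n, c n * ch (Real.log n) t) :=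
    fun t => (Summable.of_norm (hs.congr fun n => by rw [norm_mul, norm_ch, mul_one])).hasSum
  have h3 : ∀ t, Filter.Tendsto (fun M : ℕ => ∑ n ∈ Icc 1 M, c n * ch (Real.log n) t)
      Filter.atTop (nhds (∑' n, c n * ch (Real.log n) t)) := by
    intro t
    have e1 := (h1 t).tendsto_sum_nat.comp (Filter.tendsto_add_atTop_nat 1)
    refine e1.congr fun M => ?_
    simp only [Function.comp]
    rw [Finset.sum_range_succ']
    rw [h0, zero_mul, add_zero]
    rw [Finset.sum_bij (fun n (_ : n ∈ range M) => n + 1)]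
    · intro n hn
      rw [Finset.mem_range] at hn
      exact Finset.mem_Icc.2 ⟨by omega, by omega⟩
    · intro n _ m _ h
      omega
    · intro n hn
      obtain ⟨h4, h5⟩ := Finset.mem_Icc.1 hn
      exact ⟨n - 1, Finset.mem_range.2 (by omega), by omega⟩
    · intro n _
      rfl
  have h4 : Filter.Tendsto (fun M : ℕ => ∫ t in τ..(τ + 1),
      ‖∑ n ∈ Icc 1 M, c n * ch (Real.log n) t‖ ^ 2) Filter.atTop
      (nhds (∫ t in τ..(τ + 1), ‖∑' n, c n * ch (Real.log n) t‖ ^ 2)) := by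
    refine intervalIntegral.tendsto_integral_filter_of_dominated_convergence
      (fun _ => (∑' n, ‖c n‖) ^ 2) ?_ ?_ ?_ ?_
    · refine Filter.Eventually.of_forall fun M => ?_
      refine Continuous.aestronglyMeasurable ?_
      exact ((continuous_finsetSum _ fun n _ => continuous_const.mul (cont_ch _)).norm.pow 2)
    · refine Filter.Eventually.of_forall fun M => Filter.Eventually.of_forall fun t _ => ?_
      rw [Real.norm_eq_abs, abs_of_nonneg (by positivity)]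
      refine pow_le_pow_left₀ (norm_nonneg _) ?_ 2
      refine (norm_sum_le _ _).trans ?_
      refine le_trans (le_of_eq (Finset.sum_congr rfl fun n _ => ?_))
        (hs.sum_le_tsum (Icc 1 M) fun n _ => norm_nonneg _)
      rw [norm_mul, norm_ch, mul_one]
    · simp
    · exact Filter.Eventually.of_forall fun t _ => (((h3 t).norm).pow 2)
  exact le_of_tendsto' h4 h

end Pool.Agent.X280.EB
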