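import Pool.Agent.X280.EB.Radial

/-! Radial limits almost everywhere on the edge line, continued. -/

set_option autoImplicit false

namespace Pool.Agent.X280.EB

open Finset MeasureTheory Filter Topology
open scoped ENNReal

/-- coefficients of minus the derivative -/
noncomputable def cq (a : ℕ → ℂ) (u : ℝ) (n : ℕ) : ℂ :=
  if n.Prime then a n * ((Real.log n * (n : ℝ) ^ (-(1 + u)) : ℝ) : ℂ) else 0

/-- minus the derivative of the sum over the primes -/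
noncomputable def QQ (a : ℕ → ℂ) (u t : ℝ) : ℂ := ∑' n, cq a u n * ch (Real.log n) t

section
variable {a : ℕ → ℂ} {ρ : ℝ}

theorem norm_cq (ha : ∀ p : ℕ, p.Prime → ‖a p‖ ≤ ρ) (_hρ : 0 ≤ ρ) (u : ℝ) (n : ℕ) :
    ‖cq a u n‖ ≤ ρ * lw u n := by
  unfold cq lw
  split_ifs with hp
  · rw [norm_mul, Complex.norm_real, Real.norm_eq_abs, abs_of_nonneg
      (mul_nonneg (Real.log_natCast_nonneg n) (by positivity))]
    exact mul_le_mul_of_nonneg_right (ha n hp)
      (mul_nonneg (Real.log_natCast_nonneg n) (by positivity))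
  · simp

theorem QQ_hasSum (ha : ∀ p : ℕ, p.Prime → ‖a p‖ ≤ ρ) (hρ : 0 ≤ ρ) {u : ℝ} (hu : 0 < u)
    (hu1 : u ≤ 1) (t : ℝ) : HasSum (fun n => cq a u n * ch (Real.log n) t) (QQ a u t) := by
  refine (Summable.of_norm_bounded ((lw_summable hu hu1).mul_left ρ) fun n => ?_).hasSum
  rw [norm_mul, norm_ch, mul_one]
  exact norm_cq ha hρ u n

/-- a constant -/
noncomputable def CQ : ℝ :=
  Real.exp 1 * (Real.sqrt Real.pi * (2 * Real.exp 1 * (Real.log 4 * (4 * Real.log 4))))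

theorem CQ_nonneg : 0 ≤ CQ := by
  have hl4 : 0 ≤ Real.log 4 := Real.log_nonneg (by norm_num)
  unfold CQ
  positivity

theorem QQ_sq (ha : ∀ p : ℕ, p.Prime → ‖a p‖ ≤ ρ) (hρ : 0 ≤ ρ) {u : ℝ} (hu : 0 < u)
    (hu1 : u ≤ 1) (τ : ℝ) : ∫ t in τ..(τ + 1), ‖QQ a u t‖ ^ 2 ≤ CQ * ρ ^ 2 / u := by
  have hl4 : 0 ≤ Real.log 4 := Real.log_nonneg (by norm_num)
  have hcs : Summable fun n => ‖cq a u n‖ :=
    Summable.of_nonneg_of_le (fun n => norm_nonneg _) (fun n => norm_cq ha hρ u n)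
      ((lw_summable hu hu1).mul_left ρ)
  refine lim_sum hcs (by simp [cq, Nat.not_prime_zero]) fun M => ?_
  refine (gauss_bound (Icc 1 M) _ (fun n => Real.log n) τ).trans ?_
  have h1 : ∑ n ∈ Icc 1 M, ∑ m ∈ Icc 1 M, ‖cq a u n‖ * ‖cq a u m‖ *
      Real.exp (-((Real.log n - Real.log m) ^ 2 / 4)) ≤
      ∑ n ∈ Icc 1 M, ∑ m ∈ Icc 1 M, (ρ * lw u n) * (ρ * lw u m) *
      Real.exp (-((Real.log n - Real.log m) ^ 2 / 4)) := by
    refine Finset.sum_le_sum fun n _ => Finset.sum_le_sum fun m _ => ?_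
    refine mul_le_mul_of_nonneg_right ?_ (Real.exp_pos _).le
    exact mul_le_mul (norm_cq ha hρ u n) (norm_cq ha hρ u m) (norm_nonneg _)
      (mul_nonneg hρ (lw_nonneg u n))
  have h2 := dblg M (fun n => ρ * lw u n) (fun n => mul_nonneg hρ (lw_nonneg u n))
  have h3 : ∑ m ∈ Icc 1 M, ρ * lw u m / m * ∑ n ∈ Icc 1 m, n * (ρ * lw u n) ≤
      ρ ^ 2 * (Real.log 4 * (4 * Real.log 4 / u)) := by
    have h4 : ∀ m ∈ Icc 1 M, ρ * lw u m / m * ∑ n ∈ Icc 1 m, n * (ρ * lw u n) ≤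
        ρ ^ 2 * Real.log 4 * lw u m := by
      intro m hm
      have hm0 : (0 : ℝ) < m := by exact_mod_cast (Finset.mem_Icc.1 hm).1
      have h5 : ∑ n ∈ Icc 1 m, (n : ℝ) * (ρ * lw u n) ≤ ρ * (Real.log 4 * m) := by
        refine le_trans ?_ (mul_le_mul_of_nonneg_left (theta_sum m) hρ)
        rw [Finset.mul_sum]
        refine Finset.sum_le_sum fun n hn => ?_
        have hn0 : (0 : ℝ) < n := by exact_mod_cast (Finset.mem_Icc.1 hn).1
        unfold lw
        split_ifs with hp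
        · have h6 := rpow_le_inv hu.le hp
          have h7 : (n : ℝ) * (n : ℝ) ^ (-(1 + u)) ≤ 1 := by
            calc _ ≤ (n : ℝ) * (n : ℝ)⁻¹ := mul_le_mul_of_nonneg_left h6 hn0.le
              _ = 1 := mul_inv_cancel₀ hn0.ne'
          have h8 : 0 ≤ ρ * Real.log n := mul_nonneg hρ (Real.log_natCast_nonneg n)
          calc (n : ℝ) * (ρ * (Real.log n * (n : ℝ) ^ (-(1 + u)))) =
                (ρ * Real.log n) * ((n : ℝ) * (n : ℝ) ^ (-(1 + u))) := by ring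
            _ ≤ ρ * Real.log n := mul_le_of_le_one_right h8 h7
        · simp
      have h6 : 0 ≤ ρ * lw u m / m := div_nonneg (mul_nonneg hρ (lw_nonneg u m)) hm0.le
      refine (mul_le_mul_of_nonneg_left h5 h6).trans (le_of_eq ?_)
      field_simp
    refine (Finset.sum_le_sum h4).trans ?_
    rw [← Finset.mul_sum]
    have h5 := lw_sum hu hu1 (Icc 1 M)
    calc ρ ^ 2 * Real.log 4 * ∑ m ∈ Icc 1 M, lw u m ≤ ρ ^ 2 * Real.log 4 * (4 * Real.log 4 / u) :=
          mul_le_mul_of_nonneg_left h5 (by positivity)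
      _ = _ := by ring
  have h4 : CQ * ρ ^ 2 / u = Real.exp 1 * (Real.sqrt Real.pi *
      (2 * Real.exp 1 * (ρ ^ 2 * (Real.log 4 * (4 * Real.log 4 / u))))) := by
    unfold CQ
    ring
  rw [h4]
  refine mul_le_mul_of_nonneg_left (mul_le_mul_of_nonneg_left ?_ (Real.sqrt_nonneg _))
    (Real.exp_pos _).le
  exact h1.trans (h2.trans (mul_le_mul_of_nonneg_left h3 (by positivity)))

theorem cont_lp {n : ℕ} (hn : n.Prime) : Continuous fun u : ℝ => (n : ℝ) ^ (-(1 + u)) := by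
  have hp0 : (0 : ℝ) < n := by exact_mod_cast hn.pos
  exact (Real.continuous_const_rpow hp0.ne').comp (by fun_prop)

theorem cont_cq (n : ℕ) : Continuous fun x : ℝ × ℝ => cq a x.2 n * ch (Real.log n) x.1 := by
  refine Continuous.mul ?_ ((cont_ch _).comp continuous_fst)
  unfold cq
  split_ifs with hp
  · refine continuous_const.mul (Complex.continuous_ofReal.comp ?_)
    exact continuous_const.mul ((cont_lp hp).comp continuous_snd)
  · exact continuous_const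

/-- The sum over the primes is a primitive. -/
theorem PP_sub (ha : ∀ p : ℕ, p.Prime → ‖a p‖ ≤ ρ) (hρ : 0 ≤ ρ) {ε δ : ℝ} (hδ : 0 < δ)
    (hδε : δ ≤ ε) (hε1 : ε ≤ 1) (t : ℝ) :
    ‖PP a δ t - PP a ε t‖ₑ ≤ ∫⁻ u in Set.Ioc δ ε, ‖QQ a u t‖ₑ := by
  have hε : 0 < ε := hδ.trans_le hδε
  have h1 : HasSum (fun n => ∫ u in δ..ε, cq a u n * ch (Real.log n) t)
      (∫ u in δ..ε, QQ a u t) := by
    refine intervalIntegral.hasSum_integral_of_dominated_convergence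
      (fun n _ => ρ * lw δ n) (fun n => ?_) (fun n => ?_) ?_ ?_ ?_
    · exact ((cont_cq n).comp (continuous_const.prodMk continuous_id)).aestronglyMeasurable
    · refine Eventually.of_forall fun u hu => ?_
      rw [Set.uIoc_of_le hδε] at hu
      rw [norm_mul, norm_ch, mul_one]
      refine (norm_cq ha hρ u n).trans (mul_le_mul_of_nonneg_left ?_ hρ)
      unfold lw
      split_ifs with hp
      · refine mul_le_mul_of_nonneg_left ?_ (Real.log_natCast_nonneg n)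
        exact Real.rpow_le_rpow_of_exponent_le (by exact_mod_cast hp.one_lt.le) (by linarith [hu.1])
      · exact le_rfl
    · exact Eventually.of_forall fun u _ => (lw_summable hδ (hδε.trans hε1)).mul_left ρ
    · simp
    · refine Eventually.of_forall fun u hu => ?_
      rw [Set.uIoc_of_le hδε] at hu
      exact QQ_hasSum ha hρ (hδ.trans hu.1) (hu.2.trans hε1) t
  have h2 : ∀ n : ℕ, ∫ u in δ..ε, cq a u n * ch (Real.log n) t =
      if n.Prime then a n * (((n : ℝ) ^ (-(1 + δ)) : ℝ) : ℂ) * ch (Real.log n) t -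
        a n * (((n : ℝ) ^ (-(1 + ε)) : ℝ) : ℂ) * ch (Real.log n) t else 0 := by
    intro n
    unfold cq
    split_ifs with hp
    · have hp0 : (0 : ℝ) < n := by exact_mod_cast hp.pos
      have hd : ∀ u : ℝ, HasDerivAt (fun u : ℝ => -(n : ℝ) ^ (-(1 + u)))
          (Real.log n * (n : ℝ) ^ (-(1 + u))) u := by
        intro u
        have h3 : HasDerivAt (fun u : ℝ => -(1 + u)) (-1) u :=
          ((hasDerivAt_id u).const_add (1 : ℝ)).neg
        have h4 := (h3.const_rpow hp0).neg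
        refine h4.congr_deriv ?_
        ring
      have h5 : ∫ u in δ..ε, Real.log n * (n : ℝ) ^ (-(1 + u)) =
          -(n : ℝ) ^ (-(1 + ε)) - -(n : ℝ) ^ (-(1 + δ)) :=
        intervalIntegral.integral_eq_sub_of_hasDerivAt (fun u _ => hd u)
          ((continuous_const.mul (cont_lp hp)).intervalIntegrable _ _)
      have h6 : ∀ u : ℝ, a n * ((Real.log n * (n : ℝ) ^ (-(1 + u)) : ℝ) : ℂ) * ch (Real.log n) t =
          (a n * ch (Real.log n) t) * ((Real.log n * (n : ℝ) ^ (-(1 + u)) : ℝ) : ℂ) := fun u => by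
        ring
      simp_rw [h6]
      rw [intervalIntegral.integral_const_mul, intervalIntegral.integral_ofReal, h5]
      push_cast
      ring
    · simp
  have h3 : ∫ u in δ..ε, QQ a u t = PP a δ t - PP a ε t := by
    rw [← h1.tsum_eq]
    have e1 := (summable_a hδ ha t).of_norm
    have e2 := (summable_a hε ha t).of_norm
    unfold PP
    rw [← e1.tsum_sub e2]
    simp_rw [h2]
    have e3 : (fun n : ℕ => if n.Prime then a n * (((n : ℝ) ^ (-(1 + δ)) : ℝ) : ℂ) *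
        ch (Real.log n) t - a n * (((n : ℝ) ^ (-(1 + ε)) : ℝ) : ℂ) * ch (Real.log n) t else 0) =
        Set.indicator {p : ℕ | p.Prime} (fun n : ℕ => a n * (((n : ℝ) ^ (-(1 + δ)) : ℝ) : ℂ) *
        ch (Real.log n) t - a n * (((n : ℝ) ^ (-(1 + ε)) : ℝ) : ℂ) * ch (Real.log n) t) := by
      funext n
      by_cases hn : n.Prime
      · rw [Set.indicator_of_mem (by exact hn), if_pos hn]
      · rw [Set.indicator_of_notMem (by exact hn), if_neg hn]
    rw [e3, ← _root_.tsum_subtype]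
    rfl
  rw [← h3, intervalIntegral.integral_of_le hδε]
  exact enorm_integral_le_lintegral_enorm _

theorem QQ_meas (ha : ∀ p : ℕ, p.Prime → ‖a p‖ ≤ ρ) (hρ : 0 ≤ ρ) (μ : Measure ℝ) [SFinite μ] :
    AEMeasurable (fun x : ℝ × ℝ => QQ a x.2 x.1)
      (μ.prod (volume.restrict (Set.Ioc (0 : ℝ) 1))) := by
  refine aemeasurable_of_tendsto_metrizable_ae' (f := fun N x =>
    ∑ n ∈ range N, cq a x.2 n * ch (Real.log n) x.1) (fun N => ?_) ?_
  · exact (continuous_finsetSum _ fun n _ => cont_cq n).measurable.aemeasurable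
  · have h1 : ∀ᵐ u ∂(volume.restrict (Set.Ioc (0 : ℝ) 1)), u ∈ Set.Ioc (0 : ℝ) 1 :=
      ae_restrict_mem measurableSet_Ioc
    have h2 := (Measure.quasiMeasurePreserving_snd (μ := μ)
      (ν := volume.restrict (Set.Ioc (0 : ℝ) 1))).ae h1
    filter_upwards [h2] with x hx
    exact (QQ_hasSum ha hρ hx.1 hx.2 x.1).tendsto_sum_nat

theorem QQ_cont (ha : ∀ p : ℕ, p.Prime → ‖a p‖ ≤ ρ) (hρ : 0 ≤ ρ) {u : ℝ} (hu : 0 < u)
    (hu1 : u ≤ 1) : Continuous (QQ a u) := by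
  unfold QQ
  refine continuous_tsum (fun n => continuous_const.mul (cont_ch _))
    ((lw_summable hu hu1).mul_left ρ) fun n t => ?_
  rw [norm_mul, norm_ch, mul_one]
  exact norm_cq ha hρ u n

/-- Almost everywhere the derivative is integrable. -/
theorem QQ_ae (ha : ∀ p : ℕ, p.Prime → ‖a p‖ ≤ ρ) (hρ : 0 ≤ ρ) :
    ∀ᵐ t, ∫⁻ u in Set.Ioc (0 : ℝ) 1, ‖QQ a u t‖ₑ ≠ ∞ := by
  have hloc : ∀ j : ℤ, ∀ᵐ t ∂(volume.restrict (Set.Icc (j : ℝ) (j + 1))),
      ∫⁻ u in Set.Ioc (0 : ℝ) 1, ‖QQ a u t‖ₑ ≠ ∞ := by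
    intro j
    set μ := volume.restrict (Set.Icc (j : ℝ) (j + 1)) with hμ
    have hm := QQ_meas ha hρ μ
    have hme : AEMeasurable (fun x : ℝ × ℝ => ‖QQ a x.2 x.1‖ₑ)
        (μ.prod (volume.restrict (Set.Ioc (0 : ℝ) 1))) := hm.enorm
    have hsw := lintegral_lintegral_swap (f := fun t u => ‖QQ a u t‖ₑ) hme
    have hb : ∀ u ∈ Set.Ioc (0 : ℝ) 1, ∫⁻ t, ‖QQ a u t‖ₑ ∂μ ≤
        ENNReal.ofReal ((1 + CQ * ρ ^ 2) / 2 * u ^ (-(1 / 2) : ℝ)) := by
      intro u hu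
      have hc := QQ_cont ha hρ hu.1 hu.2
      have h1 : ∀ t, ‖QQ a u t‖ₑ ≤ ENNReal.ofReal ((u ^ (-(1 / 2) : ℝ) +
          u ^ ((1 / 2) : ℝ) * ‖QQ a u t‖ ^ 2) / 2) := by
        intro t
        rw [← ofReal_norm]
        refine ENNReal.ofReal_le_ofReal ?_
        set A := u ^ ((1 / 4) : ℝ) with hA
        have hA0 : 0 < A := by rw [hA]; exact Real.rpow_pos_of_pos hu.1 _
        have e1 : u ^ ((1 / 2) : ℝ) = A ^ 2 := by
          rw [hA, ← Real.rpow_natCast, ← Real.rpow_mul hu.1.le]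
          norm_num
        have e2 : u ^ (-(1 / 2) : ℝ) = (A⁻¹) ^ 2 := by
          rw [hA, ← Real.rpow_neg hu.1.le, ← Real.rpow_natCast, ← Real.rpow_mul hu.1.le]
          norm_num
        rw [e1, e2]
        have h2 : A⁻¹ * (A * ‖QQ a u t‖) = ‖QQ a u t‖ := inv_mul_cancel_left₀ hA0.ne' _
        have h3 := sq_nonneg (A⁻¹ - A * ‖QQ a u t‖)
        have h4 : (A⁻¹ - A * ‖QQ a u t‖) ^ 2 = A⁻¹ ^ 2 - 2 * (A⁻¹ * (A * ‖QQ a u t‖)) +
          A ^ 2 * ‖QQ a u t‖ ^ 2 := by ring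
        rw [h4, h2] at h3
        linarith
      refine (lintegral_mono h1).trans ?_
      rw [hμ, toL (f := fun t => (u ^ (-(1 / 2) : ℝ) + u ^ ((1 / 2) : ℝ) * ‖QQ a u t‖ ^ 2) / 2)
        ((continuous_const.add (continuous_const.mul (hc.norm.pow 2))).div_const 2)
        (fun t => by have := hu.1; positivity)]
      refine ENNReal.ofReal_le_ofReal ?_
      have hc2 : Continuous fun t => u ^ ((1 / 2) : ℝ) * ‖QQ a u t‖ ^ 2 :=
        continuous_const.mul (hc.norm.pow 2)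
      rw [intervalIntegral.integral_div, intervalIntegral.integral_add (by simp)
        (hc2.intervalIntegrable _ _), intervalIntegral.integral_const_mul,
        intervalIntegral.integral_const]
      have h3 := QQ_sq ha hρ hu.1 hu.2 (j : ℝ)
      have h4 : 0 < u ^ ((1 / 2) : ℝ) := Real.rpow_pos_of_pos hu.1 _
      have h5 : u ^ ((1 / 2) : ℝ) * (CQ * ρ ^ 2 / u) = CQ * ρ ^ 2 * u ^ (-(1 / 2) : ℝ) := by
        have : u ^ (-(1 / 2) : ℝ) = u ^ ((1 / 2) : ℝ) * u⁻¹ := by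
          rw [← Real.rpow_neg_one u, ← Real.rpow_add hu.1]
          norm_num
        rw [this]
        ring
      have h6 := mul_le_mul_of_nonneg_left h3 h4.le
      rw [h5] at h6
      simp only [add_sub_cancel_left, one_smul]
      linarith
    have hfin : ∫⁻ u in Set.Ioc (0 : ℝ) 1, ∫⁻ t, ‖QQ a u t‖ₑ ∂μ < ∞ := by
      refine (setLIntegral_mono' measurableSet_Ioc hb).trans_lt ?_
      have h1 : IntervalIntegrable (fun u : ℝ => (1 + CQ * ρ ^ 2) / 2 * u ^ (-(1 / 2) : ℝ))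
          volume 0 1 := (intervalIntegral.intervalIntegrable_rpow' (by norm_num)).const_mul _
      have h2 := (intervalIntegrable_iff_integrableOn_Ioc_of_le zero_le_one).1 h1
      exact h2.lintegral_lt_top
    rw [← hsw] at hfin
    have hm2 : AEMeasurable (fun t => ∫⁻ u in Set.Ioc (0 : ℝ) 1, ‖QQ a u t‖ₑ) μ :=
      hme.lintegral_prod_right'
    exact (ae_lt_top' hm2 hfin.ne).mono fun t ht => ht.ne
  have h2 : ∀ j : ℤ, ∀ᵐ t : ℝ, t ∈ Set.Icc (j : ℝ) (j + 1) →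
      ∫⁻ u in Set.Ioc (0 : ℝ) 1, ‖QQ a u t‖ₑ ≠ ∞ := fun j =>
    (ae_restrict_iff' measurableSet_Icc).1 (hloc j)
  have h3 := ae_all_iff.2 h2
  filter_upwards [h3] with t ht
  exact ht ⌊t⌋ ⟨Int.floor_le t, (Int.lt_floor_add_one t).le⟩

end

/-- **Radial limits.** -/
theorem radial {r : ℕ} {x : ℕ → Fin r → ℂ} (hx : ∀ p : ℕ, p.Prime → ∀ j, ‖x p j‖ ≤ 1)
    {g : ℝ → ℂ} {e : ℕ → ℝ} (he0 : ∀ k, 0 < e k) (he : Tendsto e atTop (𝓝 0))
    (hg : ∀ᵐ t, Tendsto (fun k => LG x (e k) t) atTop (𝓝 (g t))) :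
    ∀ᵐ t, Tendsto (fun ε => LG x ε t) (𝓝[>] 0) (𝓝 (g t)) := by
  have ha := fun (p : ℕ) (hp : p.Prime) => norm_tr hx hp
  filter_upwards [hg, QQ_ae ha (Nat.cast_nonneg r)] with t ht hq
  have h1 : Tendsto (fun ε : ℝ => ∫⁻ u in Set.Ioc (0 : ℝ) ε, ‖QQ (tr x) u t‖ₑ
      ∂(volume.restrict (Set.Ioc (0 : ℝ) 1))) (𝓝[>] 0) (𝓝 0) := by
    refine tendsto_setLIntegral_zero hq ?_
    have h2 : ∀ ε : ℝ, (volume.restrict (Set.Ioc (0 : ℝ) 1)) (Set.Ioc (0 : ℝ) ε) ≤
        ENNReal.ofReal ε := fun ε => by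
      refine (Measure.restrict_apply_le _ _).trans ?_
      rw [Real.volume_Ioc, sub_zero]
    have h3 : Tendsto (fun ε : ℝ => ENNReal.ofReal ε) (𝓝[>] 0) (𝓝 0) := by
      have := (ENNReal.continuous_ofReal.tendsto 0).mono_left (nhdsWithin_le_nhds (s := Set.Ioi 0))
      rwa [ENNReal.ofReal_zero] at this
    exact tendsto_of_tendsto_of_tendsto_of_le_of_le tendsto_const_nhds h3 (fun _ => bot_le) h2
  have h4 : Tendsto (fun ε : ℝ => 2 * r * Psi2 ε) (𝓝[>] 0) (𝓝 0) := by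
    have := Psi2_tendsto.const_mul (2 * r : ℝ)
    rwa [mul_zero] at this
  rw [Metric.tendsto_nhds]
  intro η hη
  have e1 : ∀ᶠ ε in 𝓝[>] (0 : ℝ), ∫⁻ u in Set.Ioc (0 : ℝ) ε, ‖QQ (tr x) u t‖ₑ
      ∂(volume.restrict (Set.Ioc (0 : ℝ) 1)) < ENNReal.ofReal (η / 4) :=
    h1.eventually (Iio_mem_nhds (by simpa using hη))
  have e2 : ∀ᶠ ε in 𝓝[>] (0 : ℝ), 2 * r * Psi2 ε < η / 4 :=
    h4.eventually (Iio_mem_nhds (by positivity))
  have e3 : ∀ᶠ ε in 𝓝[>] (0 : ℝ), ε < 1 :=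
    mem_nhdsWithin_of_mem_nhds (Iio_mem_nhds one_pos)
  filter_upwards [e1, e2, e3, self_mem_nhdsWithin] with ε h5 h6 h7 h8
  have h8' : 0 < ε := h8
  have e4 : ∀ᶠ k in atTop, e k < ε := he.eventually (Iio_mem_nhds h8')
  have e5 : ∀ᶠ k in atTop, dist (LG x (e k) t) (g t) < η / 4 :=
    (Metric.tendsto_nhds.1 ht) (η / 4) (by positivity)
  obtain ⟨k, hk1, hk2⟩ := (e4.and e5).exists
  have h9 : ‖PP (tr x) (e k) t - PP (tr x) ε t‖ < η / 4 := by
    have := PP_sub ha (Nat.cast_nonneg r) (he0 k) hk1.le h7.le t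
    have h10 : ∫⁻ u in Set.Ioc (e k) ε, ‖QQ (tr x) u t‖ₑ ≤
        ∫⁻ u in Set.Ioc (0 : ℝ) ε, ‖QQ (tr x) u t‖ₑ ∂(volume.restrict (Set.Ioc (0 : ℝ) 1)) := by
      rw [Measure.restrict_restrict measurableSet_Ioc]
      refine lintegral_mono_set fun u hu => ?_
      exact ⟨⟨(he0 k).trans hu.1, hu.2⟩, ⟨(he0 k).trans hu.1, hu.2.trans h7.le⟩⟩
    have h11 := (this.trans h10).trans_lt h5
    rw [← ofReal_norm, ENNReal.ofReal_lt_ofReal_iff (by positivity)] at h11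
    exact h11
  have h10 := RR_diff hx (he0 k).le hk1.le t
  have h11 : LG x ε t - g t = (LG x (e k) t - g t) - ((PP (tr x) (e k) t - PP (tr x) ε t) +
      (RR x (e k) t - RR x ε t)) := by
    rw [LG_eq hx (he0 k), LG_eq hx h8']
    ring
  rw [dist_eq_norm] at hk2 ⊢
  rw [h11]
  have h12 := norm_sub_le (LG x (e k) t - g t) ((PP (tr x) (e k) t - PP (tr x) ε t) +
      (RR x (e k) t - RR x ε t))
  have h13 := norm_add_le (PP (tr x) (e k) t - PP (tr x) ε t) (RR x (e k) t - RR x ε t)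
  linarith

end Pool.Agent.X280.EB
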