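import Pool.Agent.X280.EB.Diff

/-! The logarithm of the Euler product near the edge. -/

set_option autoImplicit false

namespace Pool.Agent.X280.EB

open Finset MeasureTheory Filter Topology

section
variable {r : ℕ} {x : ℕ → Fin r → ℂ} {ε δ : ℝ}

/-- the eigenvalue times `p^{-s}` -/
noncomputable def zz (x : ℕ → Fin r → ℂ) (ε t : ℝ) (p : ℕ) (j : Fin r) : ℂ :=
  x p j * ((p : ℝ) ^ (-(1 + ε)) : ℝ) * ch (Real.log p) t

theorem norm_zz (hx : ∀ p : ℕ, p.Prime → ∀ j, ‖x p j‖ ≤ 1) (hε : 0 ≤ ε) (t : ℝ) {p : ℕ}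
    (hp : p.Prime) (j : Fin r) : ‖zz x ε t p j‖ ≤ (p : ℝ) ^ (-(1 + ε)) ∧
      ‖zz x ε t p j‖ ≤ (p : ℝ)⁻¹ ∧ (p : ℝ)⁻¹ ≤ 1 / 2 := by
  have h1 : ‖zz x ε t p j‖ ≤ (p : ℝ) ^ (-(1 + ε)) := by
    unfold zz
    rw [norm_mul, norm_mul, norm_ch, mul_one, Complex.norm_real, Real.norm_eq_abs,
      abs_of_nonneg (by positivity)]
    exact mul_le_of_le_one_left (by positivity) (hx p hp j)
  refine ⟨h1, h1.trans (rpow_le_inv hε hp), ?_⟩
  have hp2 : (2 : ℝ) ≤ p := by exact_mod_cast hp.two_le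
  rw [one_div]
  exact inv_anti₀ (by norm_num) hp2

/-- the trace -/
noncomputable def tr (x : ℕ → Fin r → ℂ) (p : ℕ) : ℂ := ∑ j, x p j

theorem norm_tr (hx : ∀ p : ℕ, p.Prime → ∀ j, ‖x p j‖ ≤ 1) {p : ℕ} (hp : p.Prime) :
    ‖tr x p‖ ≤ r := by
  refine (norm_sum_le _ _).trans ((Finset.sum_le_sum fun j _ => hx p hp j).trans (le_of_eq ?_))
  simp

theorem sum_zz (ε t : ℝ) (p : ℕ) : ∑ j, zz x ε t p j =
    tr x p * ((p : ℝ) ^ (-(1 + ε)) : ℝ) * ch (Real.log p) t := by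
  unfold zz tr
  rw [Finset.sum_mul, Finset.sum_mul]

/-- the remaining part of the logarithm -/
noncomputable def RR (x : ℕ → Fin r → ℂ) (ε t : ℝ) : ℂ := ∑' p : Nat.Primes, ∑ j, ph (zz x ε t p j)

/-- the logarithm -/
noncomputable def LG (x : ℕ → Fin r → ℂ) (ε t : ℝ) : ℂ :=
  ∑' p : Nat.Primes, ∑ j, Complex.log (1 - zz x ε t p j)⁻¹

theorem sq_summable : Summable fun m : ℕ => ((m : ℝ) ^ 2)⁻¹ :=
  Real.summable_nat_pow_inv.2 (by norm_num)

theorem sq_summable_pr : Summable fun p : Nat.Primes => (((p : ℕ) : ℝ) ^ 2)⁻¹ :=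
  sq_summable.comp_injective (fun a b h => Subtype.ext h)

noncomputable def C2 : ℝ := ∑' p : Nat.Primes, (((p : ℕ) : ℝ) ^ 2)⁻¹

theorem C2_nonneg : 0 ≤ C2 := tsum_nonneg fun p => by positivity

theorem RR_term (hx : ∀ p : ℕ, p.Prime → ∀ j, ‖x p j‖ ≤ 1) (hε : 0 ≤ ε) (t : ℝ) {p : ℕ}
    (hp : p.Prime) : ‖∑ j, ph (zz x ε t p j)‖ ≤ r * ((p : ℝ) ^ 2)⁻¹ := by
  refine (norm_sum_le _ _).trans ?_
  have h : ∀ j ∈ (Finset.univ : Finset (Fin r)), ‖ph (zz x ε t p j)‖ ≤ ((p : ℝ) ^ 2)⁻¹ := by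
    intro j _
    obtain ⟨h1, h2, h3⟩ := norm_zz hx hε t hp j
    refine (ph_le (h2.trans h3)).trans ?_
    rw [← inv_pow]
    exact pow_le_pow_left₀ (norm_nonneg _) h2 2
  refine (Finset.sum_le_sum h).trans (le_of_eq ?_)
  simp

theorem RR_summable (hx : ∀ p : ℕ, p.Prime → ∀ j, ‖x p j‖ ≤ 1) (hε : 0 ≤ ε) (t : ℝ) :
    Summable fun p : Nat.Primes => ∑ j, ph (zz x ε t p j) :=
  Summable.of_norm_bounded (sq_summable_pr.mul_left (r : ℝ)) fun p => RR_term hx hε t p.2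

theorem RR_le (hx : ∀ p : ℕ, p.Prime → ∀ j, ‖x p j‖ ≤ 1) (hε : 0 ≤ ε) (t : ℝ) :
    ‖RR x ε t‖ ≤ r * C2 := by
  have h := tsum_of_norm_bounded (sq_summable_pr.mul_left (r : ℝ)).hasSum
    (f := fun p : Nat.Primes => ∑ j, ph (zz x ε t p j)) fun p => RR_term hx hε t p.2
  rw [tsum_mul_left] at h
  exact h

theorem LG_eq (hx : ∀ p : ℕ, p.Prime → ∀ j, ‖x p j‖ ≤ 1) (hε : 0 < ε) (t : ℝ) :
    LG x ε t = PP (tr x) ε t + RR x ε t := by
  unfold LG PP RR
  rw [← (summable_a hε (fun p hp => norm_tr hx hp) t).of_norm.tsum_add (RR_summable hx hε.le t)]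
  refine tsum_congr fun p => ?_
  rw [← sum_zz, ← Finset.sum_add_distrib]
  refine Finset.sum_congr rfl fun j _ => ?_
  unfold ph
  ring

/-- the modulus for the remaining part -/
noncomputable def Psi2 (ε : ℝ) : ℝ := ∑' m : ℕ, hh ε m * ((m : ℝ) ^ 2)⁻¹

theorem Psi2_tendsto : Tendsto Psi2 (𝓝[>] 0) (𝓝 0) :=
  tsum_tendsto sq_summable fun m => by positivity

theorem Psi2_nonneg (hε : 0 ≤ ε) : 0 ≤ Psi2 ε :=
  tsum_nonneg fun m => mul_nonneg (hh_nonneg hε m) (by positivity)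

theorem RR_diff (hx : ∀ p : ℕ, p.Prime → ∀ j, ‖x p j‖ ≤ 1) (hδ : 0 ≤ δ) (hδε : δ ≤ ε) (t : ℝ) :
    ‖RR x δ t - RR x ε t‖ ≤ 2 * r * Psi2 ε := by
  have hε : 0 ≤ ε := hδ.trans hδε
  have hS : Summable fun m : ℕ => hh ε m * ((m : ℝ) ^ 2)⁻¹ :=
    Summable.of_nonneg_of_le (fun m => mul_nonneg (hh_nonneg hε m) (by positivity))
      (fun m => mul_le_of_le_one_left (by positivity) (hh_le ε m)) sq_summable
  have hSp : Summable fun p : Nat.Primes => hh ε p * (((p : ℕ) : ℝ) ^ 2)⁻¹ :=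
    hS.comp_injective (fun a b h => Subtype.ext h)
  unfold RR
  rw [← (RR_summable hx hδ t).tsum_sub (RR_summable hx hε t)]
  have h1 : ∀ p : Nat.Primes, ‖∑ j, ph (zz x δ t p j) - ∑ j, ph (zz x ε t p j)‖ ≤
      2 * r * (hh ε p * (((p : ℕ) : ℝ) ^ 2)⁻¹) := by
    intro p
    rw [← Finset.sum_sub_distrib]
    refine (norm_sum_le _ _).trans ?_
    have h2 : ∀ j ∈ (Finset.univ : Finset (Fin r)), ‖ph (zz x δ t p j) - ph (zz x ε t p j)‖ ≤
        2 * (hh ε p * (((p : ℕ) : ℝ) ^ 2)⁻¹) := by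
      intro j _
      obtain ⟨-, h3, h4⟩ := norm_zz hx hδ t p.2 j
      obtain ⟨-, h5, -⟩ := norm_zz hx hε t p.2 j
      refine (ph_diff h4 h3 h5).trans ?_
      have h6 : ‖zz x δ t p j - zz x ε t p j‖ ≤ ((p : ℕ) : ℝ)⁻¹ * hh ε p := by
        have e : zz x δ t p j - zz x ε t p j = x p j *
            ((((p : ℕ) : ℝ) ^ (-(1 + δ)) - ((p : ℕ) : ℝ) ^ (-(1 + ε)) : ℝ) : ℂ) *
              ch (Real.log (p : ℕ)) t := by
          unfold zz
          push_cast
          ring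
        rw [e, norm_mul, norm_mul, norm_ch, mul_one, Complex.norm_real, Real.norm_eq_abs,
          abs_of_nonneg (diff_pow hδ hδε p.2).1]
        refine (mul_le_of_le_one_left (diff_pow hδ hδε p.2).1 (hx p p.2 j)).trans ?_
        exact (diff_pow hδ hδε p.2).2
      have h7 : (0 : ℝ) ≤ 2 * ((p : ℕ) : ℝ)⁻¹ := by positivity
      refine (mul_le_mul_of_nonneg_left h6 h7).trans (le_of_eq ?_)
      rw [← inv_pow]
      ring
    refine (Finset.sum_le_sum h2).trans (le_of_eq ?_)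
    simp
    ring
  refine (tsum_of_norm_bounded (hSp.mul_left (2 * r : ℝ)).hasSum h1).trans ?_
  rw [tsum_mul_left]
  refine mul_le_mul_of_nonneg_left ?_ (by positivity)
  exact Summable.tsum_subtype_le (f := fun m : ℕ => hh ε m * ((m : ℝ) ^ 2)⁻¹) {p : ℕ | p.Prime}
    (fun m => mul_nonneg (hh_nonneg hε m) (by positivity)) hS

theorem PP_cont {a : ℕ → ℂ} {ρ : ℝ} (hε : 0 < ε) (ha : ∀ p : ℕ, p.Prime → ‖a p‖ ≤ ρ) :
    Continuous (PP a ε) := by
  unfold PP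
  refine continuous_tsum (fun p => continuous_const.mul (cont_ch _))
    ((summable_pr ε hε).mul_left ρ) fun p t => ?_
  rw [norm_mul, norm_mul, norm_ch, mul_one, Complex.norm_real, Real.norm_eq_abs,
    abs_of_nonneg (by positivity)]
  exact mul_le_mul_of_nonneg_right (ha p p.2) (by positivity)

theorem RR_cont (hx : ∀ p : ℕ, p.Prime → ∀ j, ‖x p j‖ ≤ 1) (hε : 0 ≤ ε) : Continuous (RR x ε) := by
  unfold RR
  refine continuous_tsum (fun p => ?_) (sq_summable_pr.mul_left (r : ℝ))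
    fun p t => RR_term hx hε t p.2
  refine continuous_finsetSum _ fun j _ => ?_
  have hz : Continuous fun t => zz x ε t p j := by
    unfold zz
    exact continuous_const.mul (cont_ch _)
  unfold ph
  refine Continuous.sub ?_ hz
  refine Continuous.clog ?_ fun t => ?_
  · refine Continuous.inv₀ (continuous_const.sub hz) fun t h => ?_
    obtain ⟨-, h3, h4⟩ := norm_zz hx hε t p.2 j
    have h5 : ‖zz x ε t p j‖ = 1 := by rw [← sub_eq_zero.1 h, norm_one]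
    linarith
  · obtain ⟨-, h3, h4⟩ := norm_zz hx hε t p.2 j
    have hre : 0 < (1 - zz x ε t p j).re := by
      have := Complex.abs_re_le_norm (zz x ε t p j)
      have h2 := (abs_le.1 this).2
      simp only [Complex.sub_re, Complex.one_re]
      linarith
    have hne : (1 - zz x ε t p j) ≠ 0 := fun h => by rw [h] at hre; simp at hre
    refine Or.inl ?_
    rw [Complex.inv_re]
    exact div_pos hre (Complex.normSq_pos.2 hne)

theorem LG_cont (hx : ∀ p : ℕ, p.Prime → ∀ j, ‖x p j‖ ≤ 1) (hε : 0 < ε) : Continuous (LG x ε) := by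
  have : LG x ε = fun t => PP (tr x) ε t + RR x ε t := funext fun t => LG_eq hx hε t
  rw [this]
  exact (PP_cont hε fun p hp => norm_tr hx hp).add (RR_cont hx hε.le)

/-- the modulus of continuity -/
noncomputable def Om (ε : ℝ) : ℝ := 2 * Psi ε + 8 * Psi2 ε ^ 2

theorem Om_tendsto : Tendsto Om (𝓝[>] 0) (𝓝 0) := by
  have h := (Psi_tendsto.const_mul 2).add ((Psi2_tendsto.pow 2).const_mul 8)
  have e : (2 : ℝ) * 0 + 8 * 0 ^ 2 = 0 := by norm_num
  rw [e] at h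
  exact h

/-- **Mean square differences.** -/
theorem LG_diff (hx : ∀ p : ℕ, p.Prime → ∀ j, ‖x p j‖ ≤ 1) (hδ : 0 < δ) (hδε : δ ≤ ε) (τ : ℝ) :
    ∫ t in τ..(τ + 1), ‖LG x δ t - LG x ε t‖ ^ 2 ≤ r ^ 2 * Om ε := by
  have hε : 0 < ε := hδ.trans_le hδε
  have hp := fun (p : ℕ) (hp : p.Prime) => norm_tr hx hp
  have h1 := PP_diff (Nat.cast_nonneg r) hp hδ hδε τ
  have hc1 : Continuous fun t => ‖PP (tr x) δ t - PP (tr x) ε t‖ ^ 2 :=
    ((PP_cont hδ hp).sub (PP_cont hε hp)).norm.pow 2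
  have h2 : ∫ t in τ..(τ + 1), ‖LG x δ t - LG x ε t‖ ^ 2 ≤
      ∫ t in τ..(τ + 1), (2 * ‖PP (tr x) δ t - PP (tr x) ε t‖ ^ 2 + 2 * (2 * r * Psi2 ε) ^ 2) := by
    refine intervalIntegral.integral_mono_on (by linarith)
      ((((LG_cont hx hδ).sub (LG_cont hx hε)).norm.pow 2).intervalIntegrable _ _)
      (((continuous_const.mul hc1).add continuous_const).intervalIntegrable _ _) fun t _ => ?_
    have e : LG x δ t - LG x ε t = (PP (tr x) δ t - PP (tr x) ε t) + (RR x δ t - RR x ε t) := by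
      rw [LG_eq hx hδ, LG_eq hx hε]
      ring
    have h3 := RR_diff hx hδ.le hδε t
    have h4 := norm_add_le (PP (tr x) δ t - PP (tr x) ε t) (RR x δ t - RR x ε t)
    rw [← e] at h4
    have h5 : ‖LG x δ t - LG x ε t‖ ≤ ‖PP (tr x) δ t - PP (tr x) ε t‖ + 2 * r * Psi2 ε := by
      linarith
    have h6 := pow_le_pow_left₀ (norm_nonneg _) h5 2
    nlinarith [sq_nonneg (‖PP (tr x) δ t - PP (tr x) ε t‖ - 2 * r * Psi2 ε)]
  refine h2.trans ?_
  have hc2 : Continuous fun t => 2 * ‖PP (tr x) δ t - PP (tr x) ε t‖ ^ 2 := continuous_const.mul hc1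
  rw [intervalIntegral.integral_add (hc2.intervalIntegrable _ _) (by simp),
    intervalIntegral.integral_const_mul, intervalIntegral.integral_const]
  unfold Om
  simp only [add_sub_cancel_left, one_smul]
  nlinarith

/-- **Exponential moments.** -/
theorem exp_LG {κ : ℝ} (hκ : 0 ≤ κ) (hκ1 : κ < 1) : ∃ C : ℝ, 0 ≤ C ∧
    ∀ (r : ℕ) (x : ℕ → Fin r → ℂ), (∀ p : ℕ, p.Prime → ∀ j, ‖x p j‖ ≤ 1) → ∀ z : ℂ, ‖z‖ * r ≤ κ →
      ∀ ε : ℝ, 0 < ε → ∀ τ : ℝ, ∫ t in τ..(τ + 1), Real.exp (z * LG x ε t).re ≤ C := by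
  obtain ⟨C, hC0, hC⟩ := exp_PP (κ := κ / 2) (by positivity) (by linarith)
  refine ⟨Real.exp C2 * C, by positivity, ?_⟩
  intro r x hx z hz ε hε τ
  set a : ℕ → ℂ := fun p => z / 2 * tr x p with ha
  have hab : ∀ p : ℕ, p.Prime → ‖a p‖ ≤ κ / 2 := fun p hp => by
    simp only [ha]
    rw [norm_mul, norm_div]
    have := norm_tr hx hp
    have h2 : ‖(2 : ℂ)‖ = 2 := by simp
    rw [h2]
    calc ‖z‖ / 2 * ‖tr x p‖ ≤ ‖z‖ / 2 * r := mul_le_mul_of_nonneg_left this (by positivity)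
      _ ≤ κ / 2 := by linarith
  have h1 := hC a hab ε hε τ
  have hPa : ∀ t, PP a ε t = z / 2 * PP (tr x) ε t := fun t => by
    unfold PP
    rw [← tsum_mul_left]
    refine tsum_congr fun p => ?_
    simp only [ha]
    ring
  have h2 : ∀ t, Real.exp (z * LG x ε t).re ≤ Real.exp C2 * ‖Complex.exp (PP a ε t)‖ ^ 2 := by
    intro t
    have e1 : ‖Complex.exp (PP a ε t)‖ ^ 2 = Real.exp (z * PP (tr x) ε t).re := by
      rw [Complex.norm_exp, ← Real.exp_nat_mul, hPa]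
      congr 1
      have : z * PP (tr x) ε t = z / 2 * PP (tr x) ε t + z / 2 * PP (tr x) ε t := by ring
      rw [this, Complex.add_re]
      push_cast
      ring
    rw [e1, LG_eq hx hε, mul_add, Complex.add_re, Real.exp_add, mul_comm]
    refine mul_le_mul_of_nonneg_right ?_ (Real.exp_pos _).le
    rw [Real.exp_le_exp]
    refine (Complex.re_le_norm _).trans ?_
    rw [norm_mul]
    have h3 := RR_le hx hε.le t
    have h4 := C2_nonneg
    calc ‖z‖ * ‖RR x ε t‖ ≤ ‖z‖ * (r * C2) := mul_le_mul_of_nonneg_left h3 (norm_nonneg _)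
      _ = (‖z‖ * r) * C2 := by ring
      _ ≤ 1 * C2 := mul_le_mul_of_nonneg_right (by linarith) h4
      _ = C2 := one_mul _
  have hc : Continuous fun t => ‖Complex.exp (PP a ε t)‖ ^ 2 :=
    (Complex.continuous_exp.comp (PP_cont hε hab)).norm.pow 2
  have h3 : ∫ t in τ..(τ + 1), Real.exp (z * LG x ε t).re ≤
      ∫ t in τ..(τ + 1), Real.exp C2 * ‖Complex.exp (PP a ε t)‖ ^ 2 := by
    refine intervalIntegral.integral_mono_on (by linarith) ?_
      ((continuous_const.mul hc).intervalIntegrable _ _) fun t _ => h2 t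
    refine Continuous.intervalIntegrable ?_ _ _
    exact Real.continuous_exp.comp (Complex.continuous_re.comp (continuous_const.mul (LG_cont hx hε)))
  refine h3.trans ?_
  rw [intervalIntegral.integral_const_mul]
  exact mul_le_mul_of_nonneg_left h1 (Real.exp_pos _).le

end

end Pool.Agent.X280.EB
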