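import Pool.Agent.X280.EB.Final

/-! Boundary values of the powers `L^z`. -/

set_option autoImplicit false

namespace Pool.Agent.X280.EB

open Finset MeasureTheory Filter Topology
open scoped ENNReal

theorem exp_sub_le (a b : ℂ) : ‖Complex.exp a - Complex.exp b‖ ≤
    min 1 ‖a - b‖ * (‖Complex.exp a‖ + ‖Complex.exp b‖) := by
  rcases le_total 1 ‖a - b‖ with h | h
  · rw [min_eq_left h, one_mul]
    exact norm_sub_le _ _
  · rw [min_eq_right h]
    have key : ∀ a b : ℂ, ‖a - b‖ ≤ 1 → a.re ≤ b.re →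
        ‖Complex.exp a - Complex.exp b‖ ≤ ‖a - b‖ * (‖Complex.exp a‖ + ‖Complex.exp b‖) := by
      intro a b h hre
      set c : ℂ := a - b with hc
      have e1 : Complex.exp a - Complex.exp b =
          ∫ t in (0 : ℝ)..1, c * Complex.exp (b + t * c) := by
        have hd : ∀ t : ℝ, HasDerivAt (fun t : ℝ => Complex.exp (b + t * c))
            (c * Complex.exp (b + t * c)) t := by
          intro t
          have h1 : HasDerivAt (fun t : ℝ => b + (t : ℂ) * c) (1 * c) t :=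
            ((Complex.ofRealCLM.hasDerivAt (x := t)).mul_const c).const_add b
          have h2 := h1.cexp
          refine h2.congr_deriv ?_
          ring
        have hcont : Continuous fun t : ℝ => c * Complex.exp (b + t * c) := by fun_prop
        rw [intervalIntegral.integral_eq_sub_of_hasDerivAt (fun t _ => hd t)
          (hcont.intervalIntegrable _ _)]
        have : b + ((1 : ℝ) : ℂ) * c = a := by rw [hc]; push_cast; ring
        rw [this]
        simp
      rw [e1]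
      have h2 : ∀ t ∈ Set.uIoc (0 : ℝ) 1, ‖c * Complex.exp (b + t * c)‖ ≤
          ‖c‖ * ‖Complex.exp b‖ := by
        intro t ht
        rw [Set.uIoc_of_le zero_le_one] at ht
        rw [norm_mul]
        refine mul_le_mul_of_nonneg_left ?_ (norm_nonneg _)
        rw [Complex.norm_exp, Complex.norm_exp, Real.exp_le_exp]
        have h3 : c.re ≤ 0 := by rw [hc, Complex.sub_re]; linarith
        have h4 : (b + (t : ℂ) * c).re = b.re + t * c.re := by simp
        rw [h4]
        nlinarith [ht.1]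
      have h3 := intervalIntegral.norm_integral_le_of_norm_le_const h2
      rw [sub_zero, abs_one, mul_one] at h3
      refine h3.trans (mul_le_mul_of_nonneg_left ?_ (norm_nonneg _))
      linarith [norm_nonneg (Complex.exp a)]
    rcases le_total a.re b.re with h1 | h1
    · exact key a b h h1
    · have := key b a (by rwa [norm_sub_rev]) h1
      rw [norm_sub_rev (Complex.exp a), norm_sub_rev a, add_comm ‖Complex.exp a‖]
      exact this

/-- the pointwise inequality -/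
theorem young_pt {κ lam : ℝ} (hκ : 0 ≤ κ) (hκ1 : κ < 1) (hl : 0 < lam) (z u v : ℂ) :
    ‖Complex.exp (z * u) - Complex.exp (z * v)‖ ≤
      lam * (4 * (‖Complex.exp (((2 / (1 + κ) : ℝ) : ℂ) * z * u)‖ +
        ‖Complex.exp (((2 / (1 + κ) : ℝ) : ℂ) * z * v)‖)) +
      lam ^ (-((1 + κ) / (1 - κ))) * (‖z‖ ^ 2 * ‖u - v‖ ^ 2) := by
  set q : ℝ := 2 / (1 + κ) with hq
  set q' : ℝ := 2 / (1 - κ) with hq'
  have h1k : 0 < 1 + κ := by linarith
  have h1k' : 0 < 1 - κ := by linarith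
  have hq1 : 1 < q := by rw [hq, lt_div_iff₀ h1k]; linarith
  have hq2 : q ≤ 2 := by rw [hq, div_le_iff₀ h1k]; nlinarith
  have hq'2 : 2 ≤ q' := by rw [hq', le_div_iff₀ h1k']; nlinarith
  have hconj : q.HolderConjugate q' := by
    rw [Real.holderConjugate_iff]
    refine ⟨hq1, ?_⟩
    rw [hq, hq', inv_div, inv_div]
    ring
  set A := ‖Complex.exp (z * u)‖ + ‖Complex.exp (z * v)‖ with hA
  set x := min 1 ‖z * u - z * v‖ with hx
  have hA0 : 0 ≤ A := by positivity
  have hx0 : 0 ≤ x := le_min zero_le_one (norm_nonneg _)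
  have hx1 : x ≤ 1 := min_le_left _ _
  have h1 := exp_sub_le (z * u) (z * v)
  set μ : ℝ := lam ^ (1 / q) with hμ
  have hμ0 : 0 < μ := Real.rpow_pos_of_pos hl _
  have h2 := Real.young_inequality_of_nonneg (a := μ * A) (b := x / μ) (by positivity)
    (by positivity) hconj
  have h3 : μ * A * (x / μ) = x * A := by field_simp
  rw [h3] at h2
  have hpow : ∀ w : ℂ, ‖Complex.exp (z * w)‖ ^ q = ‖Complex.exp ((q : ℂ) * z * w)‖ := by
    intro w
    rw [Complex.norm_exp, Complex.norm_exp, ← Real.exp_mul]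
    congr 1
    rw [mul_assoc (q : ℂ), Complex.re_ofReal_mul]
    ring
  have h4 : (μ * A) ^ q / q ≤ lam * (4 * (‖Complex.exp ((q : ℂ) * z * u)‖ +
      ‖Complex.exp ((q : ℂ) * z * v)‖)) := by
    have e1 : (μ * A) ^ q = lam * A ^ q := by
      rw [Real.mul_rpow hμ0.le hA0, hμ, ← Real.rpow_mul hl.le, one_div_mul_cancel (by linarith),
        Real.rpow_one]
    have e2 : A ^ q ≤ 4 * (‖Complex.exp ((q : ℂ) * z * u)‖ + ‖Complex.exp ((q : ℂ) * z * v)‖) := by
      rw [← hpow, ← hpow]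
      set M := max ‖Complex.exp (z * u)‖ ‖Complex.exp (z * v)‖ with hM
      have hM0 : 0 ≤ M := le_max_of_le_left (norm_nonneg _)
      have e3 : A ≤ 2 * M := by
        have := le_max_left ‖Complex.exp (z * u)‖ ‖Complex.exp (z * v)‖
        have := le_max_right ‖Complex.exp (z * u)‖ ‖Complex.exp (z * v)‖
        linarith
      have e4 : A ^ q ≤ (2 * M) ^ q := Real.rpow_le_rpow hA0 e3 (by linarith)
      have e5 : (2 : ℝ) ^ q ≤ 4 := by
        calc (2 : ℝ) ^ q ≤ 2 ^ (2 : ℝ) := Real.rpow_le_rpow_of_exponent_le (by norm_num) hq2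
          _ = 4 := by norm_num
      rw [Real.mul_rpow (by norm_num) hM0] at e4
      have e6 : M ^ q ≤ ‖Complex.exp (z * u)‖ ^ q + ‖Complex.exp (z * v)‖ ^ q := by
        rcases le_total ‖Complex.exp (z * u)‖ ‖Complex.exp (z * v)‖ with h | h
        · rw [hM, max_eq_right h]
          have : 0 ≤ ‖Complex.exp (z * u)‖ ^ q := by positivity
          linarith
        · rw [hM, max_eq_left h]
          have : 0 ≤ ‖Complex.exp (z * v)‖ ^ q := by positivity
          linarith
      have e7 : 0 ≤ M ^ q := by positivity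
      calc A ^ q ≤ 2 ^ q * M ^ q := e4
        _ ≤ 4 * M ^ q := mul_le_mul_of_nonneg_right e5 e7
        _ ≤ _ := mul_le_mul_of_nonneg_left e6 (by norm_num)
    rw [e1]
    have e3 : 0 ≤ lam * A ^ q := by positivity
    refine (div_le_self e3 hq1.le).trans (mul_le_mul_of_nonneg_left e2 hl.le)
  have h5 : (x / μ) ^ q' / q' ≤ lam ^ (-((1 + κ) / (1 - κ))) * (‖z‖ ^ 2 * ‖u - v‖ ^ 2) := by
    have e1 : (x / μ) ^ q' = lam ^ (-((1 + κ) / (1 - κ))) * x ^ q' := by
      rw [Real.div_rpow hx0 hμ0.le, hμ, ← Real.rpow_mul hl.le, div_eq_mul_inv, ← Real.rpow_neg hl.le,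
        mul_comm]
      congr 2
      rw [hq, hq']
      field_simp
    have e2 : x ^ q' ≤ ‖z‖ ^ 2 * ‖u - v‖ ^ 2 := by
      have e3 : x ^ q' ≤ x ^ (2 : ℝ) := by
        rcases hx0.eq_or_lt with h | h
        · rw [← h, Real.zero_rpow (by linarith), Real.zero_rpow (by norm_num)]
        · exact Real.rpow_le_rpow_of_exponent_ge h hx1 hq'2
      have e4 : x ^ (2 : ℝ) = x ^ 2 := by norm_num
      rw [e4] at e3
      refine e3.trans ?_
      have e5 : x ≤ ‖z‖ * ‖u - v‖ := by
        refine (min_le_right _ _).trans (le_of_eq ?_)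
        rw [← mul_sub, norm_mul]
      calc x ^ 2 ≤ (‖z‖ * ‖u - v‖) ^ 2 := pow_le_pow_left₀ hx0 e5 2
        _ = _ := mul_pow _ _ _
    rw [e1]
    have e3 : 0 ≤ lam ^ (-((1 + κ) / (1 - κ))) * x ^ q' := by positivity
    refine (div_le_self e3 (by linarith)).trans (mul_le_mul_of_nonneg_left e2 (by positivity))
  linarith

/-- **Boundary values of the powers.** -/
theorem edge_power : ∃ C Om : ℝ → ℝ, (∀ ε, 0 < ε → 0 < Om ε) ∧ Tendsto Om (𝓝[>] 0) (𝓝 0) ∧
    ∀ (w : ℤ) (r : ℕ) (α : ℕ → Fin r → ℂ), IsSystem w α →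
    ∃ g : ℝ → ℂ, Measurable g ∧
      (∀ᵐ t : ℝ, Tendsto (fun ε => logLf α (edgePt w ε t)) (𝓝[>] 0) (𝓝 (g t))) ∧
      (∀ ε τ : ℝ, 0 < ε → ∫⁻ t in Set.Icc τ (τ + 1),
        ENNReal.ofReal (‖logLf α (edgePt w ε t) - g t‖ ^ 2) ≤ ENNReal.ofReal (r ^ 2 * Om ε)) ∧
      ∀ z : ℂ, ‖z‖ * r < 1 → ∀ τ : ℝ,
        (∀ ε : ℝ, 0 < ε → ∫⁻ t in Set.Icc τ (τ + 1),
          ENNReal.ofReal ‖Complex.exp (z * logLf α (edgePt w ε t))‖ ≤
            ENNReal.ofReal (C (‖z‖ * r))) ∧
        ∫⁻ t in Set.Icc τ (τ + 1), ENNReal.ofReal ‖Complex.exp (z * g t)‖ ≤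
          ENNReal.ofReal (C (‖z‖ * r)) ∧
        ∀ ε : ℝ, 0 < ε → ∫⁻ t in Set.Icc τ (τ + 1),
          ENNReal.ofReal ‖Complex.exp (z * logLf α (edgePt w ε t)) - Complex.exp (z * g t)‖ ≤
            ENNReal.ofReal (C (‖z‖ * r) * Om ε ^ ((1 - ‖z‖ * r) / 2)) := by
  obtain ⟨Cf, Om₀, hOm, h⟩ := edge_motive
  set Om : ℝ → ℝ := fun ε => |Om₀ ε| + ε with hOmd
  set C : ℝ → ℝ := fun κ => |Cf κ| + (8 * |Cf (2 / (1 + κ) * κ)| + 1) with hC
  have hOmpos : ∀ ε, 0 < ε → 0 < Om ε := fun ε hε => by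
    simp only [hOmd]; positivity
  have hOmt : Tendsto Om (𝓝[>] 0) (𝓝 0) := by
    have h1 := hOm.abs
    have h2 : Tendsto (fun ε : ℝ => ε) (𝓝[>] 0) (𝓝 0) := tendsto_id.mono_left nhdsWithin_le_nhds
    have h3 := h1.add h2
    rw [abs_zero, add_zero] at h3
    exact h3
  refine ⟨C, Om, hOmpos, hOmt, fun w r α hα => ?_⟩
  obtain ⟨g, hg, hrad, -, hL2, hexp⟩ := h w r α hα
  have hle : ∀ κ : ℝ, Cf κ ≤ C κ := fun κ => by
    simp only [hC]
    have := le_abs_self (Cf κ)
    have := abs_nonneg (Cf (2 / (1 + κ) * κ))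
    linarith
  have hL2' : ∀ ε τ : ℝ, 0 < ε → ∫⁻ t in Set.Icc τ (τ + 1),
      ENNReal.ofReal (‖logLf α (edgePt w ε t) - g t‖ ^ 2) ≤ ENNReal.ofReal (r ^ 2 * Om ε) :=
    fun ε τ hε => (hL2 ε τ hε).trans (ENNReal.ofReal_le_ofReal (mul_le_mul_of_nonneg_left
      (by simp only [hOmd]; linarith [le_abs_self (Om₀ ε)]) (by positivity)))
  refine ⟨g, hg, hrad, hL2', fun z hz τ => ⟨fun ε hε => ((hexp z hz τ).1 ε hε).trans
    (ENNReal.ofReal_le_ofReal (hle _)), (hexp z hz τ).2.trans (ENNReal.ofReal_le_ofReal (hle _)),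
    fun ε hε => ?_⟩⟩
  set κ : ℝ := ‖z‖ * r with hκ
  have hκ0 : 0 ≤ κ := by positivity
  set q : ℝ := 2 / (1 + κ) with hq
  have h1k : 0 < 1 + κ := by linarith
  have hq0 : 0 < q := by positivity
  have hqκ : ‖(q : ℂ) * z‖ * r = q * κ := by
    rw [norm_mul, Complex.norm_real, Real.norm_eq_abs, abs_of_pos hq0]
    ring
  have hqκ1 : ‖(q : ℂ) * z‖ * r < 1 := by
    rw [hqκ, hq, div_mul_eq_mul_div, div_lt_one h1k]
    linarith
  have hE := hexp ((q : ℂ) * z) hqκ1 τ
  rw [hqκ] at hE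
  set lam : ℝ := Om ε ^ ((1 - κ) / 2) with hlam
  have hO := hOmpos ε hε
  have hlam0 : 0 < lam := Real.rpow_pos_of_pos hO _
  set m : ℝ := lam ^ (-((1 + κ) / (1 - κ))) with hm
  have hm0 : 0 < m := Real.rpow_pos_of_pos hlam0 _
  have hx : ∀ p : ℕ, p.Prime → ∀ j, ‖nz w α p j‖ ≤ 1 := nz_le hα
  have hLc : Continuous fun t => logLf α (edgePt w ε t) := by
    have := LG_cont hx hε
    refine this.congr fun t => (logLf_eq ε t).symm
  have ha : Measurable fun t => ENNReal.ofReal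
      ‖Complex.exp ((q : ℂ) * z * logLf α (edgePt w ε t))‖ :=
    ((Complex.continuous_exp.comp (continuous_const.mul hLc)).norm.measurable).ennreal_ofReal
  have hb : Measurable fun t => ENNReal.ofReal ‖Complex.exp ((q : ℂ) * z * g t)‖ :=
    ((Complex.continuous_exp.measurable.comp (hg.const_mul _)).norm).ennreal_ofReal
  have hd : Measurable fun t => ENNReal.ofReal (‖logLf α (edgePt w ε t) - g t‖ ^ 2) :=
    ((hLc.measurable.sub hg).norm.pow_const 2).ennreal_ofReal
  have hpt : ∀ t, ENNReal.ofReal ‖Complex.exp (z * logLf α (edgePt w ε t)) -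
      Complex.exp (z * g t)‖ ≤ ENNReal.ofReal (lam * 4) *
        (ENNReal.ofReal ‖Complex.exp ((q : ℂ) * z * logLf α (edgePt w ε t))‖ +
          ENNReal.ofReal ‖Complex.exp ((q : ℂ) * z * g t)‖) +
        ENNReal.ofReal (m * ‖z‖ ^ 2) * ENNReal.ofReal (‖logLf α (edgePt w ε t) - g t‖ ^ 2) := by
    intro t
    rw [← ENNReal.ofReal_add (norm_nonneg _) (norm_nonneg _), ← ENNReal.ofReal_mul (by positivity),
      ← ENNReal.ofReal_mul (by positivity), ← ENNReal.ofReal_add (by positivity) (by positivity)]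
    refine ENNReal.ofReal_le_ofReal ?_
    have := young_pt hκ0 hz hlam0 z (logLf α (edgePt w ε t)) (g t)
    linarith
  refine (lintegral_mono hpt).trans ?_
  have hab : Measurable fun t => ENNReal.ofReal
      ‖Complex.exp ((q : ℂ) * z * logLf α (edgePt w ε t))‖ +
        ENNReal.ofReal ‖Complex.exp ((q : ℂ) * z * g t)‖ := ha.add hb
  rw [lintegral_add_right _ (hd.const_mul _), lintegral_const_mul _ hab,
    lintegral_const_mul _ hd, lintegral_add_right _ hb]
  have h1 := hE.1 ε hε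
  have h2 := hE.2
  have h3 := hL2' ε τ hε
  set D : ℝ := |Cf (q * κ)| with hD
  have hD0 : 0 ≤ D := abs_nonneg _
  have h1' := h1.trans (ENNReal.ofReal_le_ofReal (le_abs_self (Cf (q * κ))))
  have h2' := h2.trans (ENNReal.ofReal_le_ofReal (le_abs_self (Cf (q * κ))))
  calc _ ≤ ENNReal.ofReal (lam * 4) * (ENNReal.ofReal D + ENNReal.ofReal D) +
        ENNReal.ofReal (m * ‖z‖ ^ 2) * ENNReal.ofReal (r ^ 2 * Om ε) := by
        gcongr
    _ = ENNReal.ofReal (lam * 4 * (D + D) + m * ‖z‖ ^ 2 * (r ^ 2 * Om ε)) := by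
        rw [← ENNReal.ofReal_add hD0 hD0, ← ENNReal.ofReal_mul (by positivity),
          ← ENNReal.ofReal_mul (by positivity), ← ENNReal.ofReal_add (by positivity) (by positivity)]
    _ ≤ _ := by
        refine ENNReal.ofReal_le_ofReal ?_
        have e1 : m * Om ε = lam := by
          rw [hm, hlam, ← Real.rpow_mul hO.le]
          nth_rewrite 2 [← Real.rpow_one (Om ε)]
          rw [← Real.rpow_add hO]
          congr 1
          have : 1 - κ ≠ 0 := by linarith
          field_simp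
          ring
        have e2 : m * ‖z‖ ^ 2 * (r ^ 2 * Om ε) = κ ^ 2 * lam := by
          rw [← e1, hκ]
          ring
        have e3 : κ ^ 2 * lam ≤ 1 * lam := mul_le_mul_of_nonneg_right (by nlinarith) hlam0.le
        rw [e2]
        simp only [hC]
        have e4 : 0 ≤ |Cf κ| * lam := by positivity
        have e5 : (|Cf κ| + (8 * |Cf (2 / (1 + κ) * κ)| + 1)) * lam =
            |Cf κ| * lam + lam * 4 * (D + D) + 1 * lam := by
          rw [hD, hq]; ring
        rw [e5]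
        linarith

end Pool.Agent.X280.EB
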