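import Pool.Agent.X280.EB.Edge

/-! Radial limits almost everywhere on the edge line. -/

set_option autoImplicit false

namespace Pool.Agent.X280.EB

open Finset MeasureTheory Filter Topology
open scoped ENNReal

/-- the double sum, general coefficients -/
theorem dblg (M : ℕ) (c : ℕ → ℝ) (hc0 : ∀ n, 0 ≤ c n) :
    ∑ n ∈ Icc 1 M, ∑ m ∈ Icc 1 M, c n * c m *
      Real.exp (-((Real.log n - Real.log m) ^ 2 / 4)) ≤
      2 * Real.exp 1 * ∑ m ∈ Icc 1 M, c m / m * ∑ n ∈ Icc 1 m, n * c n := by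
  classical
  set F : ℕ → ℕ → ℝ := fun n m => c n * c m * Real.exp (-((Real.log n - Real.log m) ^ 2 / 4)) with hF
  have hF0 : ∀ n m, 0 ≤ F n m := fun n m =>
    mul_nonneg (mul_nonneg (hc0 n) (hc0 m)) (Real.exp_pos _).le
  have hsymm : ∀ n m, F n m = F m n := fun n m => by
    simp only [hF]
    rw [mul_comm (c n) (c m)]
    congr 2
    ring
  set T := ∑ m ∈ Icc 1 M, ∑ n ∈ Icc 1 m, F n m with hT
  have h1 : ∑ n ∈ Icc 1 M, ∑ m ∈ Icc 1 M, F n m ≤ T + T := by
    have e1 : ∀ n ∈ Icc 1 M, ∑ m ∈ Icc 1 M, F n m ≤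
        (∑ m ∈ Icc 1 n, F m n) + ∑ m ∈ Icc 1 M with n ≤ m, F n m := by
      intro n hn
      rw [← Finset.sum_filter_add_sum_filter_not (Icc 1 M) (fun m => n ≤ m), add_comm]
      refine add_le_add_left ?_ _
      have : ∀ m, F n m = F m n := fun m => hsymm n m
      simp_rw [this]
      refine Finset.sum_le_sum_of_subset_of_nonneg ?_ fun m _ _ => hF0 m n
      intro m hm
      obtain ⟨h2, h3⟩ := Finset.mem_filter.1 hm
      exact Finset.mem_Icc.2 ⟨(Finset.mem_Icc.1 h2).1, by omega⟩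
    refine (Finset.sum_le_sum e1).trans ?_
    rw [Finset.sum_add_distrib]
    refine add_le_add le_rfl (le_of_eq ?_)
    have e2 : ∀ n ∈ Icc 1 M, ∑ m ∈ Icc 1 M with n ≤ m, F n m =
        ∑ m ∈ Icc 1 M, if n ≤ m then F n m else 0 := fun n _ => Finset.sum_filter _ _
    rw [Finset.sum_congr rfl e2, Finset.sum_comm]
    refine Finset.sum_congr rfl fun m hm => ?_
    rw [← Finset.sum_filter]
    refine Finset.sum_congr ?_ fun _ _ => rfl
    ext n
    simp only [Finset.mem_filter, Finset.mem_Icc] at hm ⊢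
    omega
  have h2 : T ≤ Real.exp 1 * ∑ m ∈ Icc 1 M, c m / m * ∑ n ∈ Icc 1 m, n * c n := by
    rw [hT, Finset.mul_sum]
    refine Finset.sum_le_sum fun m hm => ?_
    obtain ⟨h3, h4⟩ := Finset.mem_Icc.1 hm
    have hm0 : (0 : ℝ) < m := by exact_mod_cast h3
    rw [Finset.mul_sum, Finset.mul_sum]
    refine Finset.sum_le_sum fun n hn => ?_
    obtain ⟨h5, h6⟩ := Finset.mem_Icc.1 hn
    have hn0 : (0 : ℝ) < n := by exact_mod_cast h5
    have h7 : Real.exp (-((Real.log n - Real.log m) ^ 2 / 4)) ≤ Real.exp 1 * (n / m) := by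
      rw [← exp_log_le h5 h6]
      exact gauss_le_exp _
    calc F n m ≤ c n * c m * (Real.exp 1 * (n / m)) :=
          mul_le_mul_of_nonneg_left h7 (mul_nonneg (hc0 n) (hc0 m))
      _ = _ := by field_simp
  have h3 : 2 * Real.exp 1 * ∑ m ∈ Icc 1 M, c m / m * ∑ n ∈ Icc 1 m, n * c n =
      Real.exp 1 * ∑ m ∈ Icc 1 M, c m / m * ∑ n ∈ Icc 1 m, n * c n +
        Real.exp 1 * ∑ m ∈ Icc 1 M, c m / m * ∑ n ∈ Icc 1 m, n * c n := by ring
  rw [h3]
  exact h1.trans (add_le_add h2 h2)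

theorem one_sub_two (ε : ℝ) (h0 : 0 ≤ ε) (h1 : ε ≤ 1) : ε / 2 ≤ 1 - (2 : ℝ) ^ (-ε) := by
  have h2 : (2 : ℝ) ^ (-ε) ≤ 1 - ε / 2 := by
    have h3 : (2 : ℝ) ^ (-ε) = (1 + (-(1 / 2) : ℝ)) ^ ε := by
      rw [Real.rpow_neg (by norm_num), ← Real.inv_rpow (by norm_num)]
      norm_num
    rw [h3]
    have := rpow_one_add_le_one_add_mul_self (s := -(1 / 2)) (p := ε) (by norm_num) h0 h1
    linarith
  linarith

/-- `log p · p^{-(1+u)}` on the primes -/
noncomputable def lw (u : ℝ) (n : ℕ) : ℝ :=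
  if n.Prime then Real.log n * (n : ℝ) ^ (-(1 + u)) else 0

theorem lw_nonneg (u : ℝ) (n : ℕ) : 0 ≤ lw u n := by
  unfold lw
  split_ifs
  · exact mul_nonneg (Real.log_natCast_nonneg n) (by positivity)
  · exact le_rfl

theorem theta_sum (m : ℕ) : ∑ n ∈ Icc 1 m, (if n.Prime then Real.log n else 0) ≤
    Real.log 4 * m := by
  have h := Chebyshev.theta_le_log4_mul_x (x := (m : ℝ)) (Nat.cast_nonneg m)
  refine le_trans (le_of_eq ?_) h
  unfold Chebyshev.theta
  rw [Nat.floor_natCast, Finset.sum_filter]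
  refine Finset.sum_congr ?_ fun _ _ => rfl
  ext n
  simp only [Finset.mem_Icc, Finset.mem_Ioc]
  omega

/-- the sum of `log p · p^{-(1+u)}` -/
theorem lw_sum {u : ℝ} (hu : 0 < u) (hu1 : u ≤ 1) (s : Finset ℕ) :
    ∑ n ∈ s, lw u n ≤ 4 * Real.log 4 / u := by
  classical
  set q : ℝ := (2 : ℝ) ^ (-u) with hq
  have hq0 : 0 < q := by positivity
  have hl4 : 0 ≤ Real.log 4 := Real.log_nonneg (by norm_num)
  have hq1 : u / 2 ≤ 1 - q := one_sub_two u hu.le hu1
  set K := s.sup (fun n => Nat.log 2 n) + 1 with hK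
  have hmaps : ∀ n ∈ s, Nat.log 2 n ∈ range K := fun n hn => by
    rw [Finset.mem_range]
    have := Finset.le_sup (f := fun n => Nat.log 2 n) hn
    omega
  rw [← Finset.sum_fiberwise_of_maps_to hmaps]
  have hk : ∀ k ∈ range K, ∑ n ∈ s with Nat.log 2 n = k, lw u n ≤ 2 * Real.log 4 * q ^ k := by
    intro k _
    have h1 : ∀ n ∈ s.filter (fun n => Nat.log 2 n = k), lw u n ≤
        (if n.Prime then Real.log n else 0) * ((1 / 2 ^ k) * q ^ k) := by
      intro n hn
      obtain ⟨h2, h3⟩ := Finset.mem_filter.1 hn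
      unfold lw
      split_ifs with hp
      · refine mul_le_mul_of_nonneg_left ?_ (Real.log_natCast_nonneg n)
        have h5 : (2 : ℝ) ^ k ≤ n := by
          have := Nat.pow_log_le_self 2 hp.ne_zero
          rw [h3] at this
          exact_mod_cast this
        have h6 : (n : ℝ) ^ (-(1 + u)) ≤ ((2 : ℝ) ^ k) ^ (-(1 + u)) :=
          Real.rpow_le_rpow_of_nonpos (by positivity) h5 (by linarith)
        refine h6.trans (le_of_eq ?_)
        rw [hq, ← Real.rpow_natCast, ← Real.rpow_natCast, ← Real.rpow_mul (by norm_num),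
          ← Real.rpow_mul (by norm_num), one_div, ← Real.rpow_neg (by norm_num),
          ← Real.rpow_add (by norm_num)]
        congr 1
        ring
      · rw [zero_mul]
    refine (Finset.sum_le_sum h1).trans ?_
    rw [← Finset.sum_mul]
    have h4 : ∑ n ∈ s with Nat.log 2 n = k, (if n.Prime then Real.log n else 0) ≤
        Real.log 4 * ((2 ^ (k + 1) : ℕ) : ℝ) := by
      refine le_trans ?_ (theta_sum (2 ^ (k + 1)))
      rw [← Finset.sum_filter_add_sum_filter_not (s.filter fun n => Nat.log 2 n = k) (fun n => n = 0)]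
      have h3 : ∑ n ∈ (s.filter fun n => Nat.log 2 n = k) with n = 0,
          (if n.Prime then Real.log n else 0) = 0 :=
        Finset.sum_eq_zero fun n hn => by
          rw [(Finset.mem_filter.1 hn).2, if_neg Nat.not_prime_zero]
      rw [h3, zero_add]
      refine Finset.sum_le_sum_of_subset_of_nonneg ?_ fun n _ _ => ?_
      · intro n hn
        obtain ⟨h5, h6⟩ := Finset.mem_filter.1 hn
        obtain ⟨h7, h8⟩ := Finset.mem_filter.1 h5
        have h9 : n < 2 ^ (k + 1) := by rw [← h8]; exact Nat.lt_pow_succ_log_self (by norm_num) n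
        exact Finset.mem_Icc.2 ⟨Nat.pos_of_ne_zero h6, h9.le⟩
      · split_ifs
        · exact Real.log_natCast_nonneg n
        · exact le_rfl
    refine (mul_le_mul_of_nonneg_right h4 (by positivity)).trans (le_of_eq ?_)
    push_cast
    rw [pow_succ]
    field_simp
  refine (Finset.sum_le_sum hk).trans ?_
  rw [← Finset.mul_sum]
  have hq2 : q < 1 := by linarith
  have h3 : ∑ k ∈ range K, q ^ k ≤ 2 / u := by
    refine ((summable_geometric_of_lt_one hq0.le hq2).sum_le_tsum _ fun _ _ => by positivity).trans ?_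
    rw [tsum_geometric_of_lt_one hq0.le hq2, ← one_div, div_le_div_iff₀ (by linarith) hu]
    linarith
  calc 2 * Real.log 4 * ∑ k ∈ range K, q ^ k ≤ 2 * Real.log 4 * (2 / u) :=
        mul_le_mul_of_nonneg_left h3 (by positivity)
    _ = _ := by ring

theorem lw_summable {u : ℝ} (hu : 0 < u) (hu1 : u ≤ 1) : Summable (lw u) :=
  summable_of_sum_le (lw_nonneg u) (lw_sum hu hu1)

end Pool.Agent.X280.EB
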