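import Pool.Agent.X280.EB.Arith

/-! Upper bounds for the sums of the coefficients. -/

set_option autoImplicit false

namespace Pool.Agent.X280.EB

open Finset

theorem step_rpow (δ : ℝ) (hδ : 0 < δ) (n : ℕ) (hn : 1 ≤ n) :
    δ * ((n + 1 : ℕ) : ℝ) ^ (-(1 + δ)) ≤ (n : ℝ) ^ (-δ) - ((n + 1 : ℕ) : ℝ) ^ (-δ) := by
  have hn0 : (0 : ℝ) < n := by exact_mod_cast hn
  have hn1 : (0 : ℝ) < (n : ℝ) + 1 := by positivity
  push_cast
  have e1 : (n : ℝ) ^ (-δ) = ((n : ℝ) + 1) ^ (-δ) * (((n : ℝ) + 1) / n) ^ δ := by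
    rw [Real.div_rpow hn1.le hn0.le, Real.rpow_neg hn1.le, Real.rpow_neg hn0.le]
    field_simp
  have e2 : ((n : ℝ) + 1) ^ (-(1 + δ)) = ((n : ℝ) + 1) ^ (-δ) * ((n : ℝ) + 1)⁻¹ := by
    rw [← Real.rpow_neg_one, ← Real.rpow_add hn1]
    congr 1
    ring
  have e3 : 1 + δ * ((n : ℝ) + 1)⁻¹ ≤ (((n : ℝ) + 1) / n) ^ δ := by
    rw [Real.rpow_def_of_pos (by positivity)]
    have h1 := Real.add_one_le_exp (Real.log (((n : ℝ) + 1) / n) * δ)
    have h2 : ((n : ℝ) + 1)⁻¹ ≤ Real.log (((n : ℝ) + 1) / n) := by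
      have h3 := Real.add_one_le_exp (-Real.log (((n : ℝ) + 1) / n))
      rw [Real.exp_neg, Real.exp_log (by positivity)] at h3
      have h4 : (((n : ℝ) + 1) / n)⁻¹ = 1 - ((n : ℝ) + 1)⁻¹ := by field_simp; ring
      rw [h4] at h3
      linarith
    nlinarith
  rw [e1, e2]
  have h0 : 0 < ((n : ℝ) + 1) ^ (-δ) := by positivity
  nlinarith

theorem zeta_fin (δ : ℝ) (hδ : 0 < δ) (N : ℕ) :
    ∑ n ∈ Icc 1 N, (n : ℝ) ^ (-(1 + δ)) ≤ 1 + 1 / δ := by
  have h : ∀ N : ℕ, ∑ n ∈ Icc 1 (N + 1), (n : ℝ) ^ (-(1 + δ)) ≤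
      1 + (1 - ((N + 1 : ℕ) : ℝ) ^ (-δ)) / δ := by
    intro N
    induction N with
    | zero => simp
    | succ N ih =>
      rw [Finset.sum_Icc_succ_top (by omega)]
      have h1 := step_rpow δ hδ (N + 1) (by omega)
      have h2 : ((N + 1 + 1 : ℕ) : ℝ) ^ (-(1 + δ)) ≤
          (((N + 1 : ℕ) : ℝ) ^ (-δ) - ((N + 1 + 1 : ℕ) : ℝ) ^ (-δ)) / δ := by
        rw [le_div_iff₀ hδ]
        linarith
      calc _ ≤ (1 + (1 - ((N + 1 : ℕ) : ℝ) ^ (-δ)) / δ) +
            (((N + 1 : ℕ) : ℝ) ^ (-δ) - ((N + 1 + 1 : ℕ) : ℝ) ^ (-δ)) / δ := add_le_add ih h2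
        _ = _ := by ring
  rcases N with _ | N
  · simp; positivity
  · refine (h N).trans ?_
    have : (0 : ℝ) ≤ ((N + 1 : ℕ) : ℝ) ^ (-δ) := by positivity
    gcongr
    linarith

/-- the coefficients of `exp (κ ∑ p^{-s})` -/
noncomputable def ff (κ : ℝ) (n : ℕ) : ℝ := co ℝ (fun _ => κ) n

theorem ff_nonneg {κ : ℝ} (hκ : 0 ≤ κ) (n : ℕ) : 0 ≤ ff κ n := co_nonneg (fun _ => hκ) n

theorem ff_one_le (n : ℕ) : ff 1 n ≤ 1 := by
  unfold ff co
  split_ifs
  · norm_num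
  · unfold Finsupp.prod
    refine Finset.prod_le_one (fun p _ => by positivity) fun p _ => ?_
    show (1 : ℝ) ^ (n.factorization p) / ((n.factorization p).factorial : ℝ) ≤ 1
    rw [one_pow]
    have : (1 : ℝ) ≤ ((n.factorization p).factorial : ℝ) := by
      exact_mod_cast Nat.succ_le_of_lt (Nat.factorial_pos _)
    exact (div_le_one (by positivity)).2 this

theorem summable_pr (δ : ℝ) (hδ : 0 < δ) :
    Summable fun p : Nat.Primes => ((p : ℕ) : ℝ) ^ (-(1 + δ)) := by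
  have h1 : Summable fun k : ℕ => (k : ℝ) ^ (-(1 + δ)) := by
    rw [Real.summable_nat_rpow]; linarith
  exact h1.comp_injective (fun a b h => Subtype.ext h)

/-- the prime zeta function near `1` -/
theorem exp_pr (δ : ℝ) (hδ : 0 < δ) :
    Real.exp (∑' p : Nat.Primes, ((p : ℕ) : ℝ) ^ (-(1 + δ))) ≤ 1 + 1 / δ := by
  have h0 : ∀ p : ℕ, 0 ≤ (p : ℝ) ^ (-(1 + δ)) := fun p => by positivity
  rw [← co_tsum_real h0 (summable_pr δ hδ)]
  refine (co_summable h0 (summable_pr δ hδ)).tsum_le_of_sum_le fun s => ?_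
  have h1 : ∀ n ∈ s, co ℝ (fun p => (p : ℝ) ^ (-(1 + δ))) n ≤
      if n = 0 then 0 else (n : ℝ) ^ (-(1 + δ)) := fun n _ => by
    have h2 := co_rpow (fun _ => 1) (1 + δ) n
    simp only [one_mul] at h2
    rw [h2]
    split_ifs with hn
    · rw [hn, co_zero, zero_mul]
    · have := ff_one_le n
      unfold ff at this
      exact mul_le_of_le_one_left (by positivity) this
  refine (Finset.sum_le_sum h1).trans ?_
  refine le_trans ?_ (zeta_fin δ hδ (s.sup id))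
  rw [← Finset.sum_filter_add_sum_filter_not s (fun n => n = 0)]
  have h3 : ∑ n ∈ s with n = 0, (if n = 0 then 0 else (n : ℝ) ^ (-(1 + δ))) = 0 :=
    Finset.sum_eq_zero fun n hn => by rw [if_pos (Finset.mem_filter.1 hn).2]
  rw [h3, zero_add]
  refine le_trans (Finset.sum_le_sum_of_subset_of_nonneg (t := Icc 1 (s.sup id)) ?_ ?_) ?_
  · intro n hn
    obtain ⟨h4, h5⟩ := Finset.mem_filter.1 hn
    exact Finset.mem_Icc.2 ⟨Nat.pos_of_ne_zero h5, Finset.le_sup (f := id) h4⟩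
  · intro n _ _
    split_ifs
    · exact le_rfl
    · positivity
  · refine Finset.sum_le_sum fun n hn => ?_
    rw [if_neg (by have := (Finset.mem_Icc.1 hn).1; omega)]

/-- the sum of `f(n) / n` -/
theorem A_le {κ : ℝ} (hκ : 0 ≤ κ) (N : ℕ) (hN : 2 ≤ N) :
    ∑ n ∈ Icc 1 N, ff κ n / n ≤ Real.exp 1 * (1 + Real.log N) ^ κ := by
  have hN1 : (1 : ℝ) < N := by exact_mod_cast (by omega : 1 < N)
  have hl : 0 < Real.log N := Real.log_pos hN1
  set δ := 1 / Real.log N with hδ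
  have hδ0 : 0 < δ := by positivity
  have hu : ∀ p : ℕ, 0 ≤ κ * (p : ℝ) ^ (-(1 + δ)) := fun p => by positivity
  have hs := (summable_pr δ hδ0).mul_left κ
  have h1 : ∀ n ∈ Icc 1 N, ff κ n / n ≤ Real.exp 1 * (ff κ n * (n : ℝ) ^ (-(1 + δ))) := by
    intro n hn
    obtain ⟨h2, h3⟩ := Finset.mem_Icc.1 hn
    have hn0 : (0 : ℝ) < n := by exact_mod_cast h2
    have h4 : (n : ℝ) ^ δ ≤ Real.exp 1 := by
      calc (n : ℝ) ^ δ ≤ (N : ℝ) ^ δ := Real.rpow_le_rpow hn0.le (by exact_mod_cast h3) hδ0.le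
        _ = Real.exp 1 := by
          rw [Real.rpow_def_of_pos (by linarith), hδ, mul_one_div_cancel hl.ne']
    have h5 : (n : ℝ) ^ (-(1 + δ)) = (n : ℝ)⁻¹ * ((n : ℝ) ^ δ)⁻¹ := by
      rw [Real.rpow_neg hn0.le, Real.rpow_add hn0, Real.rpow_one, mul_inv]
    rw [h5]
    have h6 : 0 < (n : ℝ) ^ δ := by positivity
    have h7 : 1 ≤ Real.exp 1 * ((n : ℝ) ^ δ)⁻¹ := by
      rw [← div_eq_mul_inv, le_div_iff₀ h6]; linarith
    have h8 : 0 ≤ ff κ n / n := div_nonneg (ff_nonneg hκ n) hn0.le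
    calc ff κ n / n ≤ (ff κ n / n) * (Real.exp 1 * ((n : ℝ) ^ δ)⁻¹) := le_mul_of_one_le_right h8 h7
      _ = _ := by ring
  refine (Finset.sum_le_sum h1).trans ?_
  rw [← Finset.mul_sum]
  refine mul_le_mul_of_nonneg_left ?_ (Real.exp_pos _).le
  have h9 : ∑ n ∈ Icc 1 N, ff κ n * (n : ℝ) ^ (-(1 + δ)) =
      ∑ n ∈ Icc 1 N, co ℝ (fun p => κ * (p : ℝ) ^ (-(1 + δ))) n :=
    Finset.sum_congr rfl fun n _ => (co_rpow (fun _ => κ) (1 + δ) n).symm
  rw [h9]
  refine (co_sum_le hu hs _).trans ?_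
  rw [tsum_mul_left, mul_comm, Real.exp_mul]
  refine Real.rpow_le_rpow (Real.exp_pos _).le ?_ hκ
  have := exp_pr δ hδ0
  rwa [hδ, one_div_one_div] at this

/-- the sum over `n ≤ N` with logarithms -/
theorem sum_log {κ : ℝ} (hκ : 0 ≤ κ) (N : ℕ) :
    ∑ n ∈ Icc 1 N, ff κ n * Real.log n ≤ κ * Real.log 4 * N * ∑ n ∈ Icc 1 N, ff κ n / n := by
  classical
  have h1 : ∀ n ∈ Icc 1 N, ff κ n * Real.log n =
      ∑ p ∈ n.primeFactors, κ * ff κ (n / p) * Real.log p := by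
    intro n hn
    have hn0 : n ≠ 0 := by have := (Finset.mem_Icc.1 hn).1; omega
    rw [Real.log_nat_eq_sum_factorization, Finsupp.sum, Nat.support_factorization, Finset.mul_sum]
    refine Finset.sum_congr rfl fun p hp => ?_
    have hpp := Nat.prime_of_mem_primeFactors hp
    have hdvd := Nat.dvd_of_mem_primeFactors hp
    obtain ⟨m, rfl⟩ := hdvd
    have hm : m ≠ 0 := fun h => hn0 (by rw [h, mul_zero])
    have h2 := co_rec (y := fun _ => κ) hpp hm
    rw [Nat.mul_div_cancel_left m hpp.pos]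
    unfold ff
    rw [← h2]
    ring
  rw [Finset.sum_congr rfl h1, Finset.sum_sigma']
  have h2 : ∑ x ∈ (Icc 1 N).sigma (fun n => n.primeFactors),
      κ * ff κ (x.1 / x.2) * Real.log x.2 =
      ∑ x ∈ (Icc 1 N).sigma (fun m => (Ioc 0 (N / m)).filter Nat.Prime),
        κ * ff κ x.1 * Real.log x.2 := by
    refine Finset.sum_nbij' (fun x => ⟨x.1 / x.2, x.2⟩) (fun x => ⟨x.2 * x.1, x.2⟩) ?_ ?_ ?_ ?_ ?_
    · rintro ⟨n, p⟩ hx
      simp only [Finset.mem_sigma, Finset.mem_Icc, Finset.mem_filter, Finset.mem_Ioc] at hx ⊢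
      obtain ⟨⟨h3, h4⟩, h5⟩ := hx
      have hpp := Nat.prime_of_mem_primeFactors h5
      obtain ⟨m, rfl⟩ := Nat.dvd_of_mem_primeFactors h5
      have hm : 1 ≤ m := Nat.pos_of_ne_zero fun h => by rw [h, mul_zero] at h3; omega
      rw [Nat.mul_div_cancel_left m hpp.pos]
      refine ⟨⟨hm, ?_⟩, ⟨hpp.pos, ?_⟩, hpp⟩
      · exact (Nat.le_mul_of_pos_left m hpp.pos).trans h4
      · exact (Nat.le_div_iff_mul_le (by omega)).2 h4
    · rintro ⟨m, p⟩ hx
      simp only [Finset.mem_sigma, Finset.mem_Icc, Finset.mem_filter, Finset.mem_Ioc] at hx ⊢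
      obtain ⟨⟨h3, h4⟩, ⟨h5, h6⟩, hpp⟩ := hx
      have h7 : p * m ≤ N := (Nat.le_div_iff_mul_le (by omega)).1 h6
      refine ⟨⟨Nat.mul_pos hpp.pos (by omega), h7⟩, ?_⟩
      exact Nat.mem_primeFactors.2 ⟨hpp, dvd_mul_right p m, by
        have := Nat.mul_pos hpp.pos (by omega : 0 < m); omega⟩
    · rintro ⟨n, p⟩ hx
      simp only [Finset.mem_sigma, Finset.mem_Icc] at hx
      obtain ⟨m, rfl⟩ := Nat.dvd_of_mem_primeFactors hx.2
      have hpp := Nat.prime_of_mem_primeFactors hx.2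
      simp only [Nat.mul_div_cancel_left m hpp.pos]
    · rintro ⟨m, p⟩ hx
      simp only [Finset.mem_sigma, Finset.mem_filter] at hx
      simp only [Nat.mul_div_cancel_left m hx.2.2.pos]
    · rintro ⟨n, p⟩ _
      rfl
  refine (le_of_eq h2).trans ?_
  rw [Finset.sum_sigma, Finset.mul_sum]
  refine Finset.sum_le_sum fun m hm => ?_
  have hm0 : (0 : ℝ) < m := by exact_mod_cast (Finset.mem_Icc.1 hm).1
  simp only
  rw [← Finset.mul_sum]
  have h3 : ∑ p ∈ (Ioc 0 (N / m)).filter Nat.Prime, Real.log (p : ℝ) =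
      Chebyshev.theta ((N / m : ℕ) : ℝ) := by
    unfold Chebyshev.theta
    rw [Nat.floor_natCast]
  rw [h3]
  have h4 := Chebyshev.theta_le_log4_mul_x (x := ((N / m : ℕ) : ℝ)) (Nat.cast_nonneg _)
  have h5 : ((N / m : ℕ) : ℝ) ≤ (N : ℝ) / m := Nat.cast_div_le
  have h6 : 0 ≤ Real.log 4 := Real.log_nonneg (by norm_num)
  have h7 : 0 ≤ κ * ff κ m := mul_nonneg hκ (ff_nonneg hκ m)
  calc κ * ff κ m * Chebyshev.theta ((N / m : ℕ) : ℝ) ≤ κ * ff κ m * (Real.log 4 * (N / m)) :=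
        mul_le_mul_of_nonneg_left (h4.trans (mul_le_mul_of_nonneg_left h5 h6)) h7
    _ = _ := by ring

/-- The sum of the coefficients. -/
noncomputable def WS (κ : ℝ) (N : ℕ) : ℝ := ∑ n ∈ Icc 1 N, ff κ n

theorem WS_le {κ : ℝ} (hκ : 0 ≤ κ) (N : ℕ) (hN : 2 ≤ N) :
    WS κ N ≤ (2 + κ * Real.log 4) * Real.exp 1 * N * (1 + Real.log N) ^ (κ - 1) := by
  have hN1 : (1 : ℝ) < N := by exact_mod_cast (by omega : 1 < N)
  have hl : 0 < Real.log N := Real.log_pos hN1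
  set A := ∑ n ∈ Icc 1 N, ff κ n / n with hA
  have h1 : WS κ N ≤ N * A := by
    unfold WS
    rw [hA, Finset.mul_sum]
    refine Finset.sum_le_sum fun n hn => ?_
    obtain ⟨h2, h3⟩ := Finset.mem_Icc.1 hn
    have hn0 : (0 : ℝ) < n := by exact_mod_cast h2
    have h3' : (n : ℝ) ≤ N := by exact_mod_cast h3
    calc ff κ n = n * (ff κ n / n) := by field_simp
      _ ≤ _ := mul_le_mul_of_nonneg_right h3' (div_nonneg (ff_nonneg hκ n) hn0.le)
  have h2 : WS κ N * Real.log N ≤ N * A + κ * Real.log 4 * N * A := by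
    refine le_trans ?_ (add_le_add_right (sum_log hκ N) _)
    unfold WS
    rw [Finset.sum_mul, hA, Finset.mul_sum, ← Finset.sum_add_distrib]
    refine Finset.sum_le_sum fun n hn => ?_
    obtain ⟨h2, h3⟩ := Finset.mem_Icc.1 hn
    have hn0 : (0 : ℝ) < n := by exact_mod_cast h2
    have hN0 : (0 : ℝ) < N := by linarith
    have h4 : Real.log N - Real.log n ≤ N / n := by
      rw [← Real.log_div hN0.ne' hn0.ne']
      have := Real.log_le_sub_one_of_pos (show (0 : ℝ) < N / n by positivity)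
      linarith
    have h5 := ff_nonneg hκ n
    calc ff κ n * Real.log N = ff κ n * (Real.log N - Real.log n) + ff κ n * Real.log n := by ring
      _ ≤ ff κ n * (N / n) + ff κ n * Real.log n :=
        add_le_add_left (mul_le_mul_of_nonneg_left h4 h5) _
      _ = _ := by ring
  have h3 : WS κ N * (1 + Real.log N) ≤ (2 + κ * Real.log 4) * N * A := by
    have : (2 + κ * Real.log 4) * N * A = N * A + (N * A + κ * Real.log 4 * N * A) := by ring
    rw [this]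
    linarith
  have h4 := A_le hκ N hN
  have h5 : 0 ≤ Real.log 4 := Real.log_nonneg (by norm_num)
  have h6 : (1 + Real.log N) ^ (κ - 1) = (1 + Real.log N) ^ κ * (1 + Real.log N)⁻¹ := by
    rw [← Real.rpow_neg_one (1 + Real.log N), ← Real.rpow_add (by linarith)]
    congr 1
  rw [h6, ← mul_assoc, ← div_eq_mul_inv, le_div_iff₀ (by linarith)]
  refine h3.trans ?_
  calc (2 + κ * Real.log 4) * N * A ≤ (2 + κ * Real.log 4) * N *
        (Real.exp 1 * (1 + Real.log N) ^ κ) := mul_le_mul_of_nonneg_left h4 (by positivity)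
    _ = _ := by ring

/-- The kernel sum over dyadic blocks. -/
theorem kernel {κ : ℝ} (hκ : 0 ≤ κ) (hκ2 : κ < 1 / 2) :
    ∃ C : ℝ, ∀ M : ℕ, ∑ m ∈ Icc 1 M, ff κ m * WS κ m / (m : ℝ) ^ 2 ≤ C := by
  have hWn : ∀ N, 0 ≤ WS κ N := fun N => Finset.sum_nonneg fun n _ => ff_nonneg hκ n
  have hWm : ∀ {a b}, a ≤ b → WS κ a ≤ WS κ b := fun {a b} h =>
    Finset.sum_le_sum_of_subset_of_nonneg (Finset.Icc_subset_Icc_right h) fun n _ _ => ff_nonneg hκ n
  set D := (2 + κ * Real.log 4) * Real.exp 1 with hD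
  have h5 : 0 ≤ Real.log 4 := Real.log_nonneg (by norm_num)
  have hD0 : 0 ≤ D := by positivity
  have hl2 : 0 < Real.log 2 := Real.log_pos (by norm_num)
  have hsum : Summable fun k : ℕ => ((k : ℝ) + 1) ^ (2 * (κ - 1)) := by
    have h1 : Summable fun k : ℕ => (k : ℝ) ^ (2 * (κ - 1)) := by
      rw [Real.summable_nat_rpow]; linarith
    have h2 := (summable_nat_add_iff 1).2 h1
    simpa using h2
  have hb : ∀ k : ℕ, WS κ (2 ^ (k + 1)) ^ 2 / 4 ^ k ≤
      4 * D ^ 2 * Real.log 2 ^ (2 * (κ - 1)) * ((k : ℝ) + 1) ^ (2 * (κ - 1)) := by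
    intro k
    have h1 := WS_le hκ (2 ^ (k + 1)) (by
      calc 2 = 2 ^ 1 := by norm_num
        _ ≤ 2 ^ (k + 1) := Nat.pow_le_pow_right (by norm_num) (by omega))
    have h2 : (1 + Real.log ((2 ^ (k + 1) : ℕ) : ℝ)) ^ (κ - 1) ≤
        (Real.log 2 * ((k : ℝ) + 1)) ^ (κ - 1) := by
      refine Real.rpow_le_rpow_of_nonpos (by positivity) ?_ (by linarith)
      push_cast
      rw [Real.log_pow]
      push_cast
      nlinarith
    have h3 : WS κ (2 ^ (k + 1)) ≤ D * 2 ^ (k + 1) * (Real.log 2 * ((k : ℝ) + 1)) ^ (κ - 1) := by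
      refine h1.trans ?_
      push_cast at h2 ⊢
      exact mul_le_mul_of_nonneg_left h2 (by positivity)
    have h4 := pow_le_pow_left₀ (hWn _) h3 2
    have h6 : (D * 2 ^ (k + 1) * (Real.log 2 * ((k : ℝ) + 1)) ^ (κ - 1)) ^ 2 =
        4 ^ k * (4 * D ^ 2 * Real.log 2 ^ (2 * (κ - 1)) * ((k : ℝ) + 1) ^ (2 * (κ - 1))) := by
      rw [Real.mul_rpow hl2.le (by positivity)]
      have e1 : Real.log 2 ^ (2 * (κ - 1)) = (Real.log 2 ^ (κ - 1)) ^ 2 := by
        rw [← Real.rpow_natCast, ← Real.rpow_mul hl2.le]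
        congr 1
        push_cast
        ring
      have e2 : ((k : ℝ) + 1) ^ (2 * (κ - 1)) = (((k : ℝ) + 1) ^ (κ - 1)) ^ 2 := by
        rw [← Real.rpow_natCast, ← Real.rpow_mul (by positivity)]
        congr 1
        push_cast
        ring
      have e3 : (4 : ℝ) ^ k = (2 ^ k) ^ 2 := by
        rw [← pow_mul, mul_comm, pow_mul]; norm_num
      rw [e1, e2, e3]
      ring
    rw [h6] at h4
    rw [div_le_iff₀ (by positivity)]
    linarith
  refine ⟨∑' k : ℕ, 4 * D ^ 2 * Real.log 2 ^ (2 * (κ - 1)) * ((k : ℝ) + 1) ^ (2 * (κ - 1)),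
    fun M => ?_⟩
  have hmaps : ∀ m ∈ Icc 1 M, Nat.log 2 m ∈ range (Nat.log 2 M + 1) := fun m hm => by
    rw [Finset.mem_range]
    have := Nat.log_mono_right (b := 2) (Finset.mem_Icc.1 hm).2
    omega
  rw [← Finset.sum_fiberwise_of_maps_to hmaps]
  have hk : ∀ k ∈ range (Nat.log 2 M + 1),
      ∑ m ∈ Icc 1 M with Nat.log 2 m = k, ff κ m * WS κ m / (m : ℝ) ^ 2 ≤
        4 * D ^ 2 * Real.log 2 ^ (2 * (κ - 1)) * ((k : ℝ) + 1) ^ (2 * (κ - 1)) := by
    intro k _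
    refine le_trans ?_ (hb k)
    have h1 : ∀ m ∈ (Icc 1 M).filter (fun m => Nat.log 2 m = k),
        ff κ m * WS κ m / (m : ℝ) ^ 2 ≤ ff κ m * (WS κ (2 ^ (k + 1)) / 4 ^ k) := by
      intro m hm
      obtain ⟨h2, h3⟩ := Finset.mem_filter.1 hm
      have hm0 : m ≠ 0 := by have := (Finset.mem_Icc.1 h2).1; omega
      have h4 : 2 ^ k ≤ m := by rw [← h3]; exact Nat.pow_log_le_self 2 hm0
      have h6 : m < 2 ^ (k + 1) := by rw [← h3]; exact Nat.lt_pow_succ_log_self (by norm_num) m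
      have h7 : ((4 : ℝ) ^ k) ≤ (m : ℝ) ^ 2 := by
        have : ((2 : ℝ) ^ k) ≤ m := by exact_mod_cast h4
        calc (4 : ℝ) ^ k = (2 ^ k) ^ 2 := by rw [← pow_mul, mul_comm, pow_mul]; norm_num
          _ ≤ _ := by gcongr
      rw [mul_div_assoc]
      refine mul_le_mul_of_nonneg_left ?_ (ff_nonneg hκ m)
      exact div_le_div₀ (hWn _) (hWm h6.le) (by positivity) h7
    refine (Finset.sum_le_sum h1).trans ?_
    rw [← Finset.sum_mul]
    have h8 : ∑ m ∈ Icc 1 M with Nat.log 2 m = k, ff κ m ≤ WS κ (2 ^ (k + 1)) := by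
      unfold WS
      refine Finset.sum_le_sum_of_subset_of_nonneg ?_ fun n _ _ => ff_nonneg hκ n
      intro m hm
      obtain ⟨h2, h3⟩ := Finset.mem_filter.1 hm
      have h6 : m < 2 ^ (k + 1) := by rw [← h3]; exact Nat.lt_pow_succ_log_self (by norm_num) m
      exact Finset.mem_Icc.2 ⟨(Finset.mem_Icc.1 h2).1, h6.le⟩
    calc _ ≤ WS κ (2 ^ (k + 1)) * (WS κ (2 ^ (k + 1)) / 4 ^ k) :=
          mul_le_mul_of_nonneg_right h8 (div_nonneg (hWn _) (by positivity))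
      _ = _ := by ring
  refine (Finset.sum_le_sum hk).trans ?_
  exact (hsum.mul_left _).sum_le_tsum _ fun k _ => by positivity

end Pool.Agent.X280.EB
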